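import Pool.Agent.H711R3.Words

set_option autoImplicit false

open UpperHalfPlane
open scoped MatrixGroups Topology ComplexConjugate ENNReal

namespace Pool.Agent.H711R3

namespace Cfg

variable (C : Cfg)

/-- The transition weights. -/
noncomputable def β (i j : ℕ) : ℝ := C.r i * C.r j / (|C.c i - C.c j| - C.r j) ^ 2

theorem β_nonneg (i j : ℕ) : 0 ≤ C.β i j := by
  have := C.pos i
  have := C.pos j
  unfold β
  positivity

/-- Normalised height of the point `word l • I`. -/
noncomputable def v (l : List ℕ) : ℝ := (C.word l • I).im / C.r (l.headD 0)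

theorem v_pos (l : List ℕ) : 0 < C.v l := div_pos (C.word l • I).im_pos (C.pos _)

theorem v_nonneg (l : List ℕ) : 0 ≤ C.v l := (C.v_pos l).le

theorem one_le_nd_I (i : ℕ) : 1 ≤ C.nd i I := by
  have := C.im_le_nd i I
  simpa using this

theorem abs_c_le_nd_I (i : ℕ) : |C.c i| ≤ C.nd i I := by
  have h := Complex.abs_re_le_norm ((I : ℂ) - C.c i)
  simpa [nd] using h

theorem nd_I_sub (hb : ∀ i, 4 * C.r i ≤ |C.c i|) (i : ℕ) : 3 / 4 ≤ C.nd i I - C.r i := by
  have h1 := C.one_le_nd_I i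
  have h2 := C.abs_c_le_nd_I i
  have h3 := hb i
  linarith

theorem I_mem (hb : ∀ i, 4 * C.r i ≤ |C.c i|) : I ∈ C.P := by
  intro i
  have := C.nd_I_sub hb i
  linarith

theorem v_singleton_le (i : ℕ) : C.v [i] ≤ C.r i := by
  have hr := C.pos i
  have h1 := C.one_le_nd_I i
  have : C.v [i] = C.r i / C.nd i I ^ 2 := by
    unfold v
    rw [word_cons, word_nil, mul_one, im_ρ]
    simp only [I_im, List.headD_cons]
    field_simp
  rw [this, div_le_iff₀ (by positivity)]
  have h2 : (1 : ℝ) ≤ C.nd i I ^ 2 := one_le_pow₀ h1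
  nlinarith

theorem v_cons_cons_le (hb : ∀ i, 4 * C.r i ≤ |C.c i|) {i j : ℕ} {l : List ℕ}
    (h : Red (i :: j :: l)) : C.v (i :: j :: l) ≤ C.β i j * C.v (j :: l) := by
  have hij := (red_cons.mp h).1
  have hri := C.pos i
  have hrj := C.pos j
  have h1 := (C.ping (red_cons.mp h).2 (C.I_mem hb)).1
  have h2 := C.abs_sub_le_nd i j (C.word (j :: l) • I)
  have h3 := C.gap i j hij
  have h4 : |C.c i - C.c j| - C.r j ≤ C.nd i (C.word (j :: l) • I) := by linarith
  have h5 : 0 < |C.c i - C.c j| - C.r j := by linarith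
  have h6 := (C.word (j :: l) • I).im_pos
  unfold v β
  rw [word_cons_smul C i, im_ρ]
  simp only [List.headD_cons]
  have h7 : (|C.c i - C.c j| - C.r j) ^ 2 ≤ C.nd i (C.word (j :: l) • I) ^ 2 :=
    pow_le_pow_left₀ h5.le h4 2
  have h8 : C.r i ^ 2 * (C.word (j :: l) • I).im / C.nd i (C.word (j :: l) • I) ^ 2 / C.r i =
    C.r i * (C.word (j :: l) • I).im / C.nd i (C.word (j :: l) • I) ^ 2 := by
    have := C.nd_pos i (C.word (j :: l) • I)
    field_simp
  have h9 : C.r i * C.r j / (|C.c i - C.c j| - C.r j) ^ 2 * ((C.word (j :: l) • I).im / C.r j) =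
    C.r i * (C.word (j :: l) • I).im / (|C.c i - C.c j| - C.r j) ^ 2 := by
    field_simp
  rw [h8, h9]
  exact div_le_div_of_nonneg_left (by positivity) (by positivity) h7

theorem exp_neg_dist_le (hb : ∀ i, 4 * C.r i ≤ |C.c i|) {R : ℝ} (hR : ∀ i, C.r i ≤ R)
    {i : ℕ} {l : List ℕ} (h : Red (i :: l)) :
    Real.exp (-dist I (C.word (i :: l) • I)) ≤ 4 * R * C.v (i :: l) := by
  have h1 := (C.ping h (C.I_mem hb)).1
  set z := C.word (i :: l) • I with hz
  have h2 := C.nd_I_sub hb i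
  have h3 : C.nd i I ≤ dist (I : ℂ) z + C.nd i z := by
    have : ((I : ℂ) - C.c i) = ((I : ℂ) - z) + ((z : ℂ) - C.c i) := by ring
    rw [nd, nd, this, dist_eq_norm]
    exact norm_add_le _ _
  have h4 : 3 / 4 ≤ dist (I : ℂ) z := by linarith
  have h5 := UpperHalfPlane.cosh_dist I z
  have hz0 := z.im_pos
  have h6 : Real.cosh (dist I z) ≤ Real.exp (dist I z) := by
    rw [Real.cosh_eq]
    have : Real.exp (-dist I z) ≤ Real.exp (dist I z) :=
      Real.exp_le_exp.mpr (by linarith [dist_nonneg (x := I) (y := z)])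
    linarith
  have h7 : 9 / (32 * z.im) ≤ Real.exp (dist I z) := by
    refine le_trans ?_ h6
    rw [h5]
    have : (9 : ℝ) / 16 ≤ dist (I : ℂ) z ^ 2 := by nlinarith
    have h8 : 9 / (32 * z.im) ≤ dist (I : ℂ) z ^ 2 / (2 * I.im * z.im) := by
      rw [I_im, div_le_div_iff₀ (by positivity) (by positivity)]
      nlinarith
    linarith
  have hri := C.pos i
  have h9 : z.im = C.r i * C.v (i :: l) := by
    unfold v
    simp only [List.headD_cons]
    rw [← hz]
    field_simp
  have hv := C.v_pos (i :: l)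
  rw [Real.exp_neg, inv_le_comm₀ (Real.exp_pos _) (by
    have := hR i
    have : 0 < R := by linarith
    positivity)]
  refine le_trans ?_ h7
  rw [inv_eq_one_div, div_le_div_iff₀ (by
    have := hR i
    have : 0 < R := by linarith
    positivity) (by positivity)]
  have h10 : z.im ≤ R * C.v (i :: l) := by
    rw [h9]
    exact mul_le_mul_of_nonneg_right (hR i) hv.le
  linarith

open Classical in
/-- Sum of the weights over the reduced words of length `n + 1`. -/
noncomputable def S (s : ℝ) (n : ℕ) : ℝ≥0∞ :=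
  ∑' l : List ℕ, if Red l ∧ l.length = n + 1 then ENNReal.ofReal (C.v l ^ s) else 0

theorem tsum_cons {F : List ℕ → ℝ≥0∞} (hF : F [] = 0) :
    ∑' l, F l = ∑' l, ∑' i, F (i :: l) := by
  have hinj : Function.Injective (fun p : List ℕ × ℕ => p.2 :: p.1) := by
    rintro ⟨a, b⟩ ⟨c, d⟩ h
    simp only [List.cons.injEq] at h
    rw [h.1, h.2]
  rw [← ENNReal.tsum_prod (f := fun l i => F (i :: l)),
    ← hinj.tsum_eq (f := F)]
  intro l hl
  cases l with
  | nil => exact absurd hF hl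
  | cons i l => exact ⟨(l, i), rfl⟩

theorem S_zero_le {s : ℝ} (hs : 0 < s) : C.S s 0 ≤ ∑' i, ENNReal.ofReal (C.r i ^ s) := by
  unfold S
  rw [tsum_cons (by simp)]
  rw [tsum_eq_single ([] : List ℕ)]
  · refine ENNReal.tsum_le_tsum fun i => ?_
    split_ifs
    · exact ENNReal.ofReal_le_ofReal
        (Real.rpow_le_rpow (C.v_nonneg _) (C.v_singleton_le i) hs.le)
    · exact zero_le
  · intro l hl
    rw [ENNReal.tsum_eq_zero]
    intro i
    rw [if_neg]
    rintro ⟨_, h⟩
    simp at h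
    exact hl h

theorem S_succ_le {s : ℝ} (hs : 0 < s) (hb : ∀ i, 4 * C.r i ≤ |C.c i|) {θ : ℝ≥0∞}
    (hθ : ∀ j, ∑' i, (if i ≠ j then ENNReal.ofReal (C.β i j ^ s) else 0) ≤ θ) (n : ℕ) :
    C.S s (n + 1) ≤ θ * C.S s n := by
  classical
  unfold S
  rw [tsum_cons (by simp), ← ENNReal.tsum_mul_left]
  refine ENNReal.tsum_le_tsum fun l => ?_
  cases l with
  | nil => simp
  | cons j l =>
    by_cases h : Red (j :: l) ∧ (j :: l).length = n + 1
    · rw [if_pos h]
      calc ∑' i, (if Red (i :: j :: l) ∧ (i :: j :: l).length = n + 1 + 1 then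
            ENNReal.ofReal (C.v (i :: j :: l) ^ s) else 0)
          ≤ ∑' i, (if i ≠ j then ENNReal.ofReal (C.β i j ^ s) else 0) *
            ENNReal.ofReal (C.v (j :: l) ^ s) := by
            refine ENNReal.tsum_le_tsum fun i => ?_
            by_cases h2 : Red (i :: j :: l) ∧ (i :: j :: l).length = n + 1 + 1
            · rw [if_pos h2, if_pos (red_cons.mp h2.1).1, ← ENNReal.ofReal_mul (by
                exact Real.rpow_nonneg (C.β_nonneg _ _) _), ← Real.mul_rpow (C.β_nonneg _ _)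
                (C.v_nonneg _)]
              exact ENNReal.ofReal_le_ofReal
                (Real.rpow_le_rpow (C.v_nonneg _) (C.v_cons_cons_le hb h2.1) hs.le)
            · rw [if_neg h2]; exact zero_le
        _ = (∑' i, (if i ≠ j then ENNReal.ofReal (C.β i j ^ s) else 0)) *
            ENNReal.ofReal (C.v (j :: l) ^ s) := ENNReal.tsum_mul_right
        _ ≤ _ := mul_le_mul_left (hθ j) _
    · rw [if_neg h, mul_zero]
      refine le_of_eq ?_
      rw [ENNReal.tsum_eq_zero]
      intro i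
      rw [if_neg]
      rintro ⟨h1, h2⟩
      exact h ⟨h1.tail, by simpa using h2⟩

theorem S_le {s : ℝ} (hs : 0 < s) (hb : ∀ i, 4 * C.r i ≤ |C.c i|) {θ : ℝ≥0∞}
    (hθ : ∀ j, ∑' i, (if i ≠ j then ENNReal.ofReal (C.β i j ^ s) else 0) ≤ θ) (n : ℕ) :
    C.S s n ≤ θ ^ n * ∑' i, ENNReal.ofReal (C.r i ^ s) := by
  induction n with
  | zero => simpa using C.S_zero_le hs
  | succ n ih =>
    refine (C.S_succ_le hs hb hθ n).trans ?_
    calc θ * C.S s n ≤ θ * (θ ^ n * ∑' i, ENNReal.ofReal (C.r i ^ s)) := by gcongr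
      _ = _ := by rw [pow_succ]; ring

open Classical in
theorem tsum_v_ne_top {s : ℝ} (hs : 0 < s) (hb : ∀ i, 4 * C.r i ≤ |C.c i|) {θ : ℝ≥0∞}
    (hθ1 : θ < 1)
    (hθ : ∀ j, ∑' i, (if i ≠ j then ENNReal.ofReal (C.β i j ^ s) else 0) ≤ θ)
    (hA : ∑' i, ENNReal.ofReal (C.r i ^ s) ≠ ⊤) :
    ∑' l : List ℕ, (if Red l ∧ l ≠ [] then ENNReal.ofReal (C.v l ^ s) else 0) ≠ ⊤ := by
  have h1 : ∑' l : List ℕ, (if Red l ∧ l ≠ [] then ENNReal.ofReal (C.v l ^ s) else 0) =
      ∑' n, C.S s n := by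
    unfold S
    rw [ENNReal.tsum_comm]
    refine tsum_congr fun l => ?_
    cases l with
    | nil => simp
    | cons i l =>
      rw [tsum_eq_single l.length]
      · by_cases h : Red (i :: l) <;> simp [h]
      · intro n hn
        rw [if_neg]
        rintro ⟨_, h⟩
        simp at h
        exact hn h.symm
  rw [h1]
  have h2 : ∑' n, C.S s n ≤ ∑' n, θ ^ n * ∑' i, ENNReal.ofReal (C.r i ^ s) :=
    ENNReal.tsum_le_tsum fun n => C.S_le hs hb hθ n
  rw [ENNReal.tsum_mul_right, ENNReal.tsum_geometric] at h2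
  refine ne_top_of_le_ne_top (ENNReal.mul_ne_top ?_ hA) h2
  rw [ENNReal.inv_ne_top]
  exact (tsub_pos_of_lt hθ1).ne'

open Classical in
theorem tsum_exp_ne_top {s : ℝ} (hs : 0 < s) (hb : ∀ i, 4 * C.r i ≤ |C.c i|) {θ : ℝ≥0∞}
    (hθ1 : θ < 1)
    (hθ : ∀ j, ∑' i, (if i ≠ j then ENNReal.ofReal (C.β i j ^ s) else 0) ≤ θ)
    (hA : ∑' i, ENNReal.ofReal (C.r i ^ s) ≠ ⊤) {R : ℝ} (hR : ∀ i, C.r i ≤ R) :
    ∑' l : List ℕ, (if Red l then ENNReal.ofReal (Real.exp (-s * dist I (C.word l • I)))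
      else 0) ≠ ⊤ := by
  have hR0 : 0 < R := lt_of_lt_of_le (C.pos 0) (hR 0)
  have h1 : ∀ l : List ℕ, (if Red l then ENNReal.ofReal (Real.exp (-s * dist I (C.word l • I)))
      else 0) ≤ (if l = [] then 1 else 0) + ENNReal.ofReal ((4 * R) ^ s) *
        (if Red l ∧ l ≠ [] then ENNReal.ofReal (C.v l ^ s) else 0) := by
    intro l
    cases l with
    | nil => simp [red_nil]
    | cons i l =>
      by_cases h : Red (i :: l)
      · simp only [h, if_true, ne_eq, reduceCtorEq, not_false_eq_true, and_self, if_false, zero_add]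
        rw [← ENNReal.ofReal_mul (by positivity), ← Real.mul_rpow (by positivity) (C.v_nonneg _)]
        refine ENNReal.ofReal_le_ofReal ?_
        have h2 := C.exp_neg_dist_le hb hR h
        calc Real.exp (-s * dist I (C.word (i :: l) • I)) =
            Real.exp (-dist I (C.word (i :: l) • I)) ^ s := by
              rw [← Real.exp_mul]; congr 1; ring
          _ ≤ _ := Real.rpow_le_rpow (Real.exp_pos _).le h2 hs.le
      · simp [h]
  refine ne_top_of_le_ne_top ?_ (ENNReal.tsum_le_tsum h1)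
  rw [ENNReal.tsum_add, ENNReal.tsum_mul_left]
  refine ENNReal.add_ne_top.mpr ⟨?_, ENNReal.mul_ne_top ENNReal.ofReal_ne_top
    (C.tsum_v_ne_top hs hb hθ1 hθ hA)⟩
  rw [tsum_eq_single ([] : List ℕ) (fun l hl => by simp [hl])]
  simp

end Cfg

end Pool.Agent.H711R3
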