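import Pool.Agent.H711R3.Defs
import Pool.Agent.H711R3.Sum

set_option autoImplicit false

open UpperHalfPlane
open scoped MatrixGroups Topology ComplexConjugate ENNReal

namespace Pool.Agent.H711R3

theorem mem_center_of_fix {A : SL(2, ℝ)} (h : ∀ z : ℍ, A • z = z) :
    A ∈ Subgroup.center SL(2, ℝ) := by
  rw [Matrix.SpecialLinearGroup.mem_center_iff]
  have key : ∀ z : ℍ, ((A 0 0 : ℝ) : ℂ) * z + (A 0 1 : ℝ) =
      z * (((A 1 0 : ℝ) : ℂ) * z + (A 1 1 : ℝ)) := by
    intro z
    have h1 := congrArg UpperHalfPlane.coe (h z)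
    rw [coe_specialLinearGroup_apply] at h1
    have h2 : ((A 1 0 : ℝ) : ℂ) * z + (A 1 1 : ℝ) ≠ 0 := by
      have := UpperHalfPlane.denom_ne_zero (A : GL (Fin 2) ℝ) z
      simpa [denom] using this
    simp only [Algebra.algebraMap_self, RingHom.id_apply] at h1
    rw [div_eq_iff h2] at h1
    exact h1
  have k1 := key I
  have k2 := key ⟨2 * Complex.I, by simp⟩
  have e1 := congrArg Complex.re k1
  have e2 := congrArg Complex.im k1
  have e3 := congrArg Complex.re k2
  simp at e1 e2 e3
  have hb : A 0 1 = 0 := by linarith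
  have hc : A 1 0 = 0 := by linarith
  have hd := A.det_coe
  rw [Matrix.det_fin_two] at hd
  refine ⟨A 0 0, ?_, ?_⟩
  · have : A 0 0 * A 1 1 - A 0 1 * A 1 0 = 1 := hd
    rw [hb, ← e2] at this
    simp only [Fintype.card_fin]
    nlinarith
  · ext i j
    fin_cases i <;> fin_cases j <;> simp
    · exact hb.symm
    · exact hc.symm
    · exact e2

theorem mob_injective {g h : PSL(2, ℝ)} (H : ∀ z, mob g z = mob h z) : g = h := by
  have h1 : ∀ z, mob (g⁻¹ * h) z = z := fun z => by rw [mob_mul, ← H, mob_inv]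
  obtain ⟨A, hA⟩ := QuotientGroup.mk_surjective (g⁻¹ * h)
  rw [← hA] at h1
  have h2 := mem_center_of_fix (A := A) h1
  have h3 : g⁻¹ * h = 1 := by
    rw [← hA]
    exact (QuotientGroup.eq_one_iff A).mpr h2
  exact inv_mul_eq_one.mp h3

theorem continuous_mob (z : ℍ) : Continuous fun g : PSL(2, ℝ) => mob g z :=
  Continuous.quotient_liftOn' (f := fun A : SL(2, ℝ) => A • z) (by fun_prop) _

instance : T2Space PSL(2, ℝ) :=
  T2Space.of_injective_continuous (f := fun g : PSL(2, ℝ) => fun z => mob g z)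
    (fun _ _ h => mob_injective fun z => congrFun h z)
    (continuous_pi fun z => continuous_mob z)

/-- A subgroup for which only finitely many elements move `I` by a bounded amount is discrete. -/
theorem discrete_of_finite (Γ : Subgroup PSL(2, ℝ))
    (h : ∀ T : ℝ, {γ : Γ | dist I (mob γ I) < T}.Finite) : DiscreteTopology Γ := by
  refine discreteTopology_iff_isOpen_singleton.mpr fun γ => ?_
  have ho : IsOpen {γ' : Γ | dist I (mob γ' I) < dist I (mob γ I) + 1} := by
    have : Continuous fun γ' : Γ => dist I (mob γ' I) :=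
      continuous_const.dist ((continuous_mob I).comp continuous_subtype_val)
    exact isOpen_lt this continuous_const
  exact isOpen_singleton_of_finite_mem_nhds γ (ho.mem_nhds (by simp)) (h _)

namespace Cfg

variable (C : Cfg)

theorem det_word (l : List ℕ) : (C.word l).det.val = (-1) ^ l.length := by
  induction l with
  | nil => simp
  | cons i l ih =>
    rw [word_cons, map_mul, Units.val_mul, ih]
    have : (C.ρ i).det.val = -1 := det_refl _ _ _
    rw [this, List.length_cons, pow_succ]
    ring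

theorem exists_psl {l : List ℕ} (hl : Even l.length) :
    ∃ g : PSL(2, ℝ), ∀ z, mob g z = C.word l • z := by
  have hd : Matrix.det (C.word l).val = 1 := by
    have := C.det_word l
    rw [hl.neg_one_pow] at this
    exact this
  obtain ⟨A, hA⟩ : ∃ A : SL(2, ℝ), A.val = (C.word l).val := ⟨⟨_, hd⟩, rfl⟩
  refine ⟨QuotientGroup.mk A, fun z => ?_⟩
  rw [mob_mk]
  have : C.word l = Matrix.SpecialLinearGroup.mapGL ℝ A := by
    apply Units.ext
    ext i j
    rw [← hA]
    simp
  rw [this]
  rfl

/-- The even subgroup of the reflection group, a subgroup of `PSL(2,ℝ)`. -/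
def grp : Subgroup PSL(2, ℝ) where
  carrier := {g | ∃ l : List ℕ, Even l.length ∧ ∀ z, mob g z = C.word l • z}
  mul_mem' := by
    rintro a b ⟨l, hl, h⟩ ⟨m, hm, h'⟩
    refine ⟨l ++ m, by rw [List.length_append]; exact hl.add hm, fun z => ?_⟩
    rw [mob_mul, h', h, word_append, mul_smul]
  one_mem' := ⟨[], by simp, fun z => by simp [mob_one]⟩
  inv_mem' := by
    rintro a ⟨l, hl, h⟩
    refine ⟨l.reverse, by simpa using hl, fun z => ?_⟩
    rw [word_reverse, eq_inv_smul_iff, ← h, mob_inv']

theorem mem_grp {g : PSL(2, ℝ)} :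
    g ∈ C.grp ↔ ∃ l : List ℕ, Even l.length ∧ ∀ z, mob g z = C.word l • z := Iff.rfl

theorem exists_red (l : List ℕ) : ∃ l' : List ℕ, Red l' ∧ (∀ i ∈ l', i ∈ l) ∧
    C.word l' = C.word l ∧ (Even l'.length ↔ Even l.length) := by
  induction l with
  | nil => exact ⟨[], red_nil, by simp, rfl, Iff.rfl⟩
  | cons i l ih =>
    obtain ⟨m, h1, h2, h3, h4⟩ := ih
    cases m with
    | nil =>
      refine ⟨[i], red_singleton i, by simp, ?_, ?_⟩
      · rw [word_cons, word_cons, h3]
      · rw [List.length_cons, List.length_cons, Nat.even_add_one, Nat.even_add_one, ← h4]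
    | cons j m =>
      by_cases hij : i = j
      · subst hij
        refine ⟨m, h1.tail, fun k hk => List.mem_cons_of_mem _ (h2 k (List.mem_cons_of_mem _ hk)),
          ?_, ?_⟩
        · rw [word_cons, ← h3, word_cons, ← mul_assoc, ρ_mul_self, one_mul]
        · rw [List.length_cons, Nat.even_add_one, ← h4, List.length_cons, Nat.even_add_one,
            not_not]
      · refine ⟨i :: j :: m, red_cons.mpr ⟨hij, h1⟩, ?_, ?_, ?_⟩
        · intro k hk
          rcases List.mem_cons.mp hk with rfl | hk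
          · exact List.mem_cons_self
          · exact List.mem_cons_of_mem _ (h2 k hk)
        · rw [word_cons C i, h3, word_cons C i]
        · rw [List.length_cons, List.length_cons (as := l), Nat.even_add_one, Nat.even_add_one,
            ← h4]

theorem exists_red_grp (γ : C.grp) : ∃ l : List ℕ, Red l ∧ ∀ z, mob γ z = C.word l • z := by
  obtain ⟨l, _, h⟩ := C.mem_grp.mp γ.2
  obtain ⟨l', h1, _, h3, _⟩ := C.exists_red l
  exact ⟨l', h1, fun z => by rw [h, h3]⟩

/-- A reduced word representing an element. -/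
noncomputable def wd' (γ : C.grp) : List ℕ := (C.exists_red_grp γ).choose

theorem wd'_red (γ : C.grp) : Red (C.wd' γ) := (C.exists_red_grp γ).choose_spec.1

theorem wd'_spec (γ : C.grp) (z : ℍ) : mob γ z = C.word (C.wd' γ) • z :=
  (C.exists_red_grp γ).choose_spec.2 z

theorem wd'_injective : Function.Injective C.wd' := by
  intro γ γ' h
  apply Subtype.ext
  apply mob_injective
  intro z
  rw [C.wd'_spec, C.wd'_spec, h]

/-- The condition that gives convergence of the Poincaré series at `s`. -/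
structure Conv (s : ℝ) : Prop where
  pos : 0 < s
  base : ∀ i, 4 * C.r i ≤ |C.c i|
  bdd : ∃ R, ∀ i, C.r i ≤ R
  sum_r : ∑' i, ENNReal.ofReal (C.r i ^ s) ≠ ⊤
  sum_β : ∃ θ : ℝ≥0∞, θ < 1 ∧ ∀ j, ∑' i, (if i ≠ j then ENNReal.ofReal (C.β i j ^ s) else 0) ≤ θ

variable {C}

theorem Conv.summable {s : ℝ} (h : C.Conv s) :
    Summable fun γ : C.grp => Real.exp (-s * dist I (mob γ I)) := by
  classical
  obtain ⟨R, hR⟩ := h.bdd
  obtain ⟨θ, hθ1, hθ⟩ := h.sum_β
  have h1 := C.tsum_exp_ne_top h.pos h.base hθ1 hθ h.sum_r hR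
  have h2 : ∑' γ : C.grp, ENNReal.ofReal (Real.exp (-s * dist I (mob γ I))) ≠ ⊤ := by
    refine ne_top_of_le_ne_top h1 ?_
    refine le_trans (le_of_eq ?_) (ENNReal.tsum_comp_le_tsum_of_injective C.wd'_injective _)
    refine tsum_congr fun γ => ?_
    rw [if_pos (C.wd'_red γ), C.wd'_spec]
  have h3 := ENNReal.summable_toReal h2
  refine h3.congr fun γ => ?_
  rw [ENNReal.toReal_ofReal (Real.exp_pos _).le]

theorem Conv.discrete {s : ℝ} (h : C.Conv s) : DiscreteTopology C.grp := by
  apply discrete_of_finite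
  intro T
  have h1 := h.summable.tendsto_cofinite_zero
  have h2 := h1.eventually (gt_mem_nhds (Real.exp_pos (-s * T)))
  rw [Filter.eventually_cofinite] at h2
  refine h2.subset fun γ hγ => ?_
  simp only [Set.mem_ofPred_eq, not_lt] at hγ ⊢
  refine Real.exp_le_exp.mpr ?_
  have := h.pos
  nlinarith

theorem Conv.mem {s : ℝ} (h : C.Conv s) :
    s ∈ {s : ℝ | 0 < s ∧ Summable fun γ : C.grp => Real.exp (-s * dist I (mob γ I))} :=
  ⟨h.pos, h.summable⟩

theorem Conv.criticalExponent_le {s : ℝ} (h : C.Conv s) : criticalExponent C.grp ≤ s :=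
  csInf_le ⟨0, fun _ hx => hx.1.le⟩ h.mem

theorem not_fg (hb : ∀ i, 4 * C.r i ≤ |C.c i|) : ¬ C.grp.FG := by
  classical
  rintro ⟨S, hS⟩
  have hmem : ∀ g ∈ S, g ∈ C.grp := fun g hg => by
    rw [← hS]; exact Subgroup.subset_closure hg
  have hex : ∀ g : PSL(2, ℝ), ∃ l : List ℕ, g ∈ S → ∀ z, mob g z = C.word l • z := by
    intro g
    by_cases hg : g ∈ S
    · obtain ⟨l, _, h⟩ := C.mem_grp.mp (hmem g hg)
      exact ⟨l, fun _ => h⟩
    · exact ⟨[], fun h => absurd h hg⟩
  choose L hL using hex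
  obtain ⟨N, hN⟩ : ∃ N : ℕ, ∀ g ∈ S, ∀ i ∈ L g, i < N := by
    refine ⟨(S.sup fun g => (L g).foldr max 0) + 1, fun g hg i hi => ?_⟩
    have h1 : i ≤ (L g).foldr max 0 := by
      generalize L g = m at hi
      induction m with
      | nil => simp at hi
      | cons a m ih =>
        rcases List.mem_cons.mp hi with rfl | h
        · simp
        · simp [ih h]
    have h2 : (L g).foldr max 0 ≤ S.sup fun g => (L g).foldr max 0 :=
      Finset.le_sup (f := fun g => (L g).foldr max 0) hg
    omega
  have hall : ∀ g ∈ C.grp, ∃ l : List ℕ, (∀ i ∈ l, i < N) ∧ ∀ z, mob g z = C.word l • z := by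
    intro g hg
    rw [← hS] at hg
    induction hg using Subgroup.closure_induction with
    | mem x hx => exact ⟨L x, hN x hx, hL x hx⟩
    | one => exact ⟨[], by simp, fun z => by simp [mob_one]⟩
    | mul x y _ _ hx hy =>
      obtain ⟨l, hl, h⟩ := hx
      obtain ⟨m, hm, h'⟩ := hy
      refine ⟨l ++ m, fun i hi => ?_, fun z => ?_⟩
      · rcases List.mem_append.mp hi with h | h
        · exact hl i h
        · exact hm i h
      · rw [mob_mul, h', h, word_append, mul_smul]
    | inv x _ hx =>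
      obtain ⟨l, hl, h⟩ := hx
      refine ⟨l.reverse, fun i hi => hl i (List.mem_reverse.mp hi), fun z => ?_⟩
      rw [word_reverse, eq_inv_smul_iff, ← h, mob_inv']
  obtain ⟨g, hg⟩ := C.exists_psl (l := [N, N + 1]) (by simp)
  obtain ⟨l, hl, h⟩ := hall g ⟨[N, N + 1], by simp, hg⟩
  obtain ⟨l', h1, h2, h3, _⟩ := C.exists_red l
  have hI := C.I_mem hb
  have hr : Red [N, N + 1] := red_cons.mpr ⟨by omega, red_singleton _⟩
  have h4 := (C.ping hr hI).2 (by simp)
  rw [← hg, h, ← h3] at h4
  cases l' with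
  | nil =>
    rw [word_nil, one_smul] at h4
    exact absurd (hI N) (not_le.mpr h4)
  | cons i l' =>
    have hi : i < N := hl i (h2 i List.mem_cons_self)
    have h5 := (C.ping h1 hI).1
    have h6 := C.lt_nd_of_le (i := N) (j := i) (by omega) h5
    linarith

end Cfg

end Pool.Agent.H711R3
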