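import Pool.Agent.H711R3.Seq
import Pool.Agent.H711R3.Group

set_option autoImplicit false

open UpperHalfPlane Filter
open scoped MatrixGroups Topology ComplexConjugate ENNReal

namespace Pool.Agent.H711R3

namespace Cfg

theorem β_le {C : Cfg} {i j : ℕ} (hij : i ≠ j) {d : ℝ}
    (h : C.r i * C.r j ≤ d * (|C.c i - C.c j| - C.r j) ^ 2) : C.β i j ≤ d := by
  have h1 := C.gap i j hij
  have h2 : 0 < (|C.c i - C.c j| - C.r j) ^ 2 := by
    have : 0 < |C.c i - C.c j| - C.r j := by linarith
    positivity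
  unfold β
  rw [div_le_iff₀ h2]
  exact h

/-- Criterion for convergence. -/
theorem conv_of {C : Cfg} {s q τ K : ℝ} (hs : 0 < s) (hq : 0 ≤ q) (hτ : 0 < τ)
    (hqτ : q + 4 * τ ≤ 1) (base : ∀ i, 4 * C.r i ≤ |C.c i|)
    (h0 : ∀ i j, i < 3 → j < 3 → i ≠ j → (i = 0 ∨ j = 0) → C.β i j ^ s ≤ τ)
    (h1 : ∀ i j, i < 3 → j < 3 → i ≠ j → ¬ (i = 0 ∨ j = 0) → C.β i j ^ s ≤ q)
    (h2 : ∀ i j, i ≠ j → (3 ≤ i ∨ 3 ≤ j) → C.β i j ^ s ≤ τ * (1 / 2) ^ (i + 2))
    (h3 : ∀ i, 3 ≤ i → C.r i ^ s ≤ K * (1 / 4) ^ i) (h4 : ∃ R, ∀ i, C.r i ≤ R) :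
    C.Conv s where
  pos := hs
  base := base
  bdd := h4
  sum_r := by
    have hsum : Summable fun i => C.r i ^ s := by
      rw [← summable_nat_add_iff 3]
      refine Summable.of_nonneg_of_le (fun i => Real.rpow_nonneg (C.pos _).le _)
        (fun i => h3 (i + 3) (by omega)) ?_
      have : Summable fun i : ℕ => ((1 : ℝ) / 4) ^ i :=
        summable_geometric_of_lt_one (by norm_num) (by norm_num)
      exact ((summable_nat_add_iff 3).mpr this).mul_left K
    exact hsum.tsum_ofReal_ne_top
  sum_β := by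
    classical
    refine ⟨ENNReal.ofReal (1 - τ), ?_, fun j => ?_⟩
    · rw [ENNReal.ofReal_lt_one]; linarith
    set u : ℕ → ℝ≥0∞ := fun i => if i < 3 ∧ j < 3 ∧ i ≠ j then ENNReal.ofReal (C.β i j ^ s) else 0
      with hu
    have hterm : ∀ i, (if i ≠ j then ENNReal.ofReal (C.β i j ^ s) else 0) ≤
        u i + ENNReal.ofReal (τ * (1 / 2) ^ (i + 2)) := by
      intro i
      by_cases hij : i ≠ j
      · rw [if_pos hij]
        by_cases h : i < 3 ∧ j < 3
        · have : u i = ENNReal.ofReal (C.β i j ^ s) := by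
            rw [hu]; simp only; rw [if_pos ⟨h.1, h.2, hij⟩]
          rw [this]
          exact le_self_add
        · refine le_trans (ENNReal.ofReal_le_ofReal (h2 i j hij (by omega))) le_add_self
      · rw [if_neg hij]; exact zero_le
    refine (ENNReal.tsum_le_tsum hterm).trans ?_
    rw [ENNReal.tsum_add]
    have hgeo : ∑' i : ℕ, ENNReal.ofReal (τ * (1 / 2) ^ (i + 2)) ≤ ENNReal.ofReal τ := by
      have hS : HasSum (fun i : ℕ => τ * (1 / 2) ^ (i + 2)) (τ * ((1 / 2) ^ 2 * 2)) := by
        have h := hasSum_geometric_two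
        have h' := (h.mul_left ((1 / 2 : ℝ) ^ 2)).mul_left τ
        refine h'.congr_fun ?_ |> fun h => h
        intro i
        ring
      rw [← ENNReal.ofReal_tsum_of_nonneg (fun i => by positivity) hS.summable, hS.tsum_eq]
      apply ENNReal.ofReal_le_ofReal
      nlinarith
    have hfin : ∑' i, u i ≤ ENNReal.ofReal (q + 2 * τ) := by
      rw [tsum_eq_sum (s := Finset.range 3) (fun i hi => by
        rw [hu]; simp only
        rw [if_neg]
        rintro ⟨h, _⟩
        exact hi (Finset.mem_range.mpr h))]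
      rw [Finset.sum_range_succ, Finset.sum_range_succ, Finset.sum_range_one]
      by_cases hj : j < 3
      · have e : ∀ i, i < 3 → i ≠ j → u i = ENNReal.ofReal (C.β i j ^ s) := fun i hi hij => by
          rw [hu]; simp only; rw [if_pos ⟨hi, hj, hij⟩]
        have ej : u j = 0 := by
          rw [hu]; simp
        interval_cases j
        · rw [ej, e 1 (by norm_num) (by norm_num), e 2 (by norm_num) (by norm_num), zero_add,
            ← ENNReal.ofReal_add (Real.rpow_nonneg (C.β_nonneg _ _) _)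
              (Real.rpow_nonneg (C.β_nonneg _ _) _)]
          apply ENNReal.ofReal_le_ofReal
          have := h0 1 0 (by norm_num) (by norm_num) (by norm_num) (Or.inr rfl)
          have := h0 2 0 (by norm_num) (by norm_num) (by norm_num) (Or.inr rfl)
          linarith
        · rw [ej, e 0 (by norm_num) (by norm_num), e 2 (by norm_num) (by norm_num), add_zero,
            ← ENNReal.ofReal_add (Real.rpow_nonneg (C.β_nonneg _ _) _)
              (Real.rpow_nonneg (C.β_nonneg _ _) _)]
          apply ENNReal.ofReal_le_ofReal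
          have := h0 0 1 (by norm_num) (by norm_num) (by norm_num) (Or.inl rfl)
          have := h1 2 1 (by norm_num) (by norm_num) (by norm_num) (by norm_num)
          linarith
        · rw [ej, e 0 (by norm_num) (by norm_num), e 1 (by norm_num) (by norm_num), add_zero,
            ← ENNReal.ofReal_add (Real.rpow_nonneg (C.β_nonneg _ _) _)
              (Real.rpow_nonneg (C.β_nonneg _ _) _)]
          apply ENNReal.ofReal_le_ofReal
          have := h0 0 2 (by norm_num) (by norm_num) (by norm_num) (Or.inl rfl)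
          have := h1 1 2 (by norm_num) (by norm_num) (by norm_num) (by norm_num)
          linarith
      · have e : ∀ i, u i = 0 := fun i => by
          rw [hu]; simp only
          rw [if_neg]
          rintro ⟨_, h, _⟩
          exact hj h
        rw [e, e, e]
        simp
    calc ∑' i, u i + ∑' i : ℕ, ENNReal.ofReal (τ * (1 / 2) ^ (i + 2))
        ≤ ENNReal.ofReal (q + 2 * τ) + ENNReal.ofReal τ := add_le_add hfin hgeo
      _ = ENNReal.ofReal (q + 2 * τ + τ) := (ENNReal.ofReal_add (by positivity) hτ.le).symm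
      _ ≤ _ := ENNReal.ofReal_le_ofReal (by linarith)

end Cfg

theorem lam_one {M : ℝ} : lam M 1 = Real.exp M := if_pos one_pos
theorem lam_four {M : ℝ} : lam M 4 = Real.exp M := if_pos (by norm_num)
theorem lam_neg_one {M : ℝ} : lam M (-1) = 1 := if_neg (by norm_num)

theorem ini_sep {M : ℝ} (hM : 0 ≤ M) {i j : ℕ} (hi : i < 3) (hj : j < 3) (hij : i ≠ j) :
    SepD M (if i = 0 ∨ j = 0 then 1 / (9 * Real.exp M) else 1 / 16) (ini i) (ini j) := by
  have hE : 1 ≤ Real.exp M := Real.one_le_exp hM
  set E := Real.exp M with hEdef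
  have h0 : ini 0 = (-1, 1 / 4) := rfl
  have h1 : ini 1 = (1, 1 / 4) := rfl
  have h2 : ini 2 = (4, 1) := rfl
  have c0 : cc M (ini 0) = -1 := by rw [h0, cc, lam_neg_one]; norm_num
  have c1 : cc M (ini 1) = E := by rw [h1, cc, lam_one, mul_one]
  have c2 : cc M (ini 2) = 4 * E := by rw [h2, cc, lam_four, mul_comm]
  have r0 : rr M (ini 0) = 1 / 4 := by rw [h0, rr, lam_neg_one]; norm_num
  have r1 : rr M (ini 1) = E / 4 := by rw [h1, rr, lam_one]; ring
  have r2 : rr M (ini 2) = E := by rw [h2, rr, lam_four, mul_one]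
  have a01 : |(-1 : ℝ) - E| = 1 + E := by rw [abs_of_neg (by linarith)]; ring
  have a10 : |E - (-1)| = 1 + E := by rw [abs_of_pos (by linarith)]; ring
  have a02 : |(-1 : ℝ) - 4 * E| = 1 + 4 * E := by rw [abs_of_neg (by linarith)]; ring
  have a20 : |4 * E - (-1)| = 1 + 4 * E := by rw [abs_of_pos (by linarith)]; ring
  have a12 : |E - 4 * E| = 3 * E := by rw [abs_of_neg (by linarith)]; ring
  have a21 : |4 * E - E| = 3 * E := by rw [abs_of_pos (by linarith)]; ring
  have hE0 : 0 < E := by linarith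
  have key : ∀ A X : ℝ, A * (9 * E) ≤ X → A ≤ 1 / (9 * E) * X := by
    intro A X h
    rw [one_div, inv_mul_eq_div, le_div_iff₀ (by positivity)]
    exact h
  interval_cases i <;> interval_cases j
  · exact absurd rfl hij
  · refine ⟨?_, ?_⟩
    · rw [c0, c1, r1, a01]; linarith
    · rw [c0, c1, r0, r1, a01, if_pos (Or.inl rfl)]
      apply key
      nlinarith
  · refine ⟨?_, ?_⟩
    · rw [c0, c2, r2, a02]; linarith
    · rw [c0, c2, r0, r2, a02, if_pos (Or.inl rfl)]
      apply key
      nlinarith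
  · refine ⟨?_, ?_⟩
    · rw [c0, c1, r0, a10]; linarith
    · rw [c0, c1, r0, r1, a10, if_pos (Or.inr rfl)]
      apply key
      nlinarith
  · exact absurd rfl hij
  · refine ⟨?_, ?_⟩
    · rw [c1, c2, r2, a12]; linarith
    · rw [c1, c2, r1, r2, a12, if_neg (by norm_num)]
      nlinarith
  · refine ⟨?_, ?_⟩
    · rw [c0, c2, r0, a20]; linarith
    · rw [c0, c2, r0, r2, a20, if_pos (Or.inr rfl)]
      apply key
      nlinarith
  · refine ⟨?_, ?_⟩
    · rw [c1, c2, r1, a21]; linarith
    · rw [c1, c2, r1, r2, a21, if_neg (by norm_num)]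
      nlinarith
  · exact absurd rfl hij

end Pool.Agent.H711R3
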