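import Mathlib

set_option autoImplicit false

open UpperHalfPlane MeasureTheory Set
open scoped MatrixGroups Topology

namespace Pool.Agent.H711R3

theorem center_smul {C : SL(2, ℝ)} (hC : C ∈ Subgroup.center SL(2, ℝ)) (z : ℍ) : C • z = z := by
  obtain ⟨s, hs, hs'⟩ := Matrix.SpecialLinearGroup.mem_center_iff.mp hC
  have hs2 : s = 1 ∨ s = -1 := by
    have : s ^ 2 = 1 := by simpa using hs
    exact mul_self_eq_one_iff.mp (by rw [← sq]; exact this)
  rcases hs2 with h | h
  · have : C = 1 := by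
      apply Subtype.ext
      rw [← hs', h]; simp
    rw [this, one_smul]
  · have : C = -1 := by
      apply Subtype.ext
      rw [← hs', h]
      ext i j
      fin_cases i <;> fin_cases j <;> simp
    rw [this]
    apply UpperHalfPlane.ext
    rw [coe_specialLinearGroup_apply]
    simp

/-- The action of `PSL(2,ℝ) = SL(2,ℝ)/{±1}` on the hyperbolic plane `ℍ` by Möbius
transformations: the class of the matrix `A` acts as `A`. -/
noncomputable def mob (g : PSL(2, ℝ)) (z : ℍ) : ℍ :=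
  Quotient.liftOn' g (fun A : SL(2, ℝ) => A • z) (by
    intro A B hAB
    rw [QuotientGroup.leftRel_apply] at hAB
    show A • z = B • z
    have h1 : B = A * (A⁻¹ * B) := by group
    rw [h1, mul_smul, center_smul hAB])

/-- The limit set of a subgroup `Γ` of `PSL(2,ℝ)`: the points `ξ` of the circle at infinity
`∂ℍ = ℝ ∪ {∞}` which are limits, in the Riemann sphere `ℂ ∪ {∞}`, of points of the orbit
`Γ · i`. -/
def limitSet (Γ : Subgroup PSL(2, ℝ)) : Set (OnePoint ℝ) :=
  {ξ | ξ.map Complex.ofReal ∈ closure (Set.range fun γ : Γ => ((mob γ I : ℂ) : OnePoint ℂ))}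

/-- Infinitely generated Fuchsian groups of the first kind: discrete subgroups of `PSL(2,ℝ)`, not
finitely generated, whose limit set is the whole circle at infinity. -/
structure IsInfGenFirstKind (Γ : Subgroup PSL(2, ℝ)) : Prop where
  discrete : DiscreteTopology Γ
  first_kind : limitSet Γ = univ
  infinitely_generated : ¬ Γ.FG

/-- The critical exponent `δ(Γ) = inf {s > 0 : ∑_{γ ∈ Γ} exp (-s d(i, γ i)) < ∞}`. -/
noncomputable def criticalExponent (Γ : Subgroup PSL(2, ℝ)) : ℝ :=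
  sInf {s : ℝ | 0 < s ∧ Summable fun γ : Γ => Real.exp (-s * dist I (mob γ I))}

/-- A map `ℍ → ℍ` read as a complex valued function on `ℂ` (with an irrelevant constant value
outside the upper half plane). -/
noncomputable def read (w : ℍ → ℍ) (z : ℂ) : ℂ := (w (ofComplex z) : ℂ)

/-- The derivative `∂f = (f_x - i f_y) / 2`. -/
noncomputable def dz (f : ℂ → ℂ) (z : ℂ) : ℂ :=
  (deriv (fun t : ℝ => f (z + t)) 0 - Complex.I * deriv (fun t : ℝ => f (z + t * Complex.I)) 0) / 2

/-- The derivative `∂̄f = (f_x + i f_y) / 2`. -/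
noncomputable def dzbar (f : ℂ → ℂ) (z : ℂ) : ℂ :=
  (deriv (fun t : ℝ => f (z + t)) 0 + Complex.I * deriv (fun t : ℝ => f (z + t * Complex.I)) 0) / 2

/-- `f` is absolutely continuous on lines in the upper half plane: in every closed rectangle
`[a,b] × [c,d]` of the upper half plane, `f` is absolutely continuous on almost every horizontal
segment and on almost every vertical segment. -/
def IsACL (f : ℂ → ℂ) : Prop :=
  ∀ a b c d : ℝ, a < b → 0 < c → c < d →
    (∀ᵐ y : ℝ, y ∈ Icc c d →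
      AbsolutelyContinuousOnInterval (fun x : ℝ => f (x + y * Complex.I)) a b) ∧
    (∀ᵐ x : ℝ, x ∈ Icc a b →
      AbsolutelyContinuousOnInterval (fun y : ℝ => f (x + y * Complex.I)) c d)

/-- Quasiconformal homeomorphisms of the hyperbolic plane (analytic definition, sense-preserving):
`w` is a homeomorphism, is absolutely continuous on lines, and there is `k < 1` such that
`|∂̄w| ≤ k |∂w|` almost everywhere. -/
def IsQuasiconformal (w : ℍ ≃ₜ ℍ) : Prop :=
  IsACL (read w) ∧ ∃ k : ℝ, 0 ≤ k ∧ k < 1 ∧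
    ∀ᵐ z : ℂ, 0 < z.im → ‖dzbar (read w) z‖ ≤ k * ‖dz (read w) z‖

/-- The quasiconformal deformations of `Γ₀` (the maps representing the points of
`T_qc(Γ₀)`): quasiconformal homeomorphisms `w` of `ℍ` such that `w γ w⁻¹` is in `PSL(2,ℝ)` for
every `γ` in `Γ₀`. -/
def qcDeformations (Γ₀ : Subgroup PSL(2, ℝ)) : Set (ℍ ≃ₜ ℍ) :=
  {w | IsQuasiconformal w ∧ ∀ γ ∈ Γ₀, ∃ γ' : PSL(2, ℝ), ∀ z, w (mob γ (w.symm z)) = mob γ' z}

theorem mob_mk (A : SL(2, ℝ)) (z : ℍ) : mob (QuotientGroup.mk A) z = A • z := rfl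

theorem mob_one (z : ℍ) : mob 1 z = z := by
  have : (1 : PSL(2, ℝ)) = QuotientGroup.mk (1 : SL(2, ℝ)) := rfl
  rw [this, mob_mk, one_smul]

theorem mob_mul (g h : PSL(2, ℝ)) (z : ℍ) : mob (g * h) z = mob g (mob h z) := by
  induction g using QuotientGroup.induction_on with | _ A
  induction h using QuotientGroup.induction_on with | _ B
  rw [← QuotientGroup.mk_mul, mob_mk, mob_mk, mob_mk, mul_smul]

theorem mob_inv (g : PSL(2, ℝ)) (z : ℍ) : mob g⁻¹ (mob g z) = z := by
  rw [← mob_mul, inv_mul_cancel, mob_one]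

theorem mob_inv' (g : PSL(2, ℝ)) (z : ℍ) : mob g (mob g⁻¹ z) = z := by
  rw [← mob_mul, mul_inv_cancel, mob_one]

/-- The group `Γ_w = w Γ₀ w⁻¹`, for `w` a homeomorphism of `ℍ`: the elements of `PSL(2,ℝ)` of the
form `w γ w⁻¹` with `γ` in `Γ₀`. -/
def conjBy (w : ℍ ≃ₜ ℍ) (Γ₀ : Subgroup PSL(2, ℝ)) : Subgroup PSL(2, ℝ) where
  carrier := {γ' | ∃ γ ∈ Γ₀, ∀ z, w (mob γ (w.symm z)) = mob γ' z}
  mul_mem' := by
    rintro a b ⟨γ, hγ, h⟩ ⟨γ', hγ', h'⟩
    refine ⟨γ * γ', mul_mem hγ hγ', fun z => ?_⟩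
    rw [mob_mul, mob_mul, ← h', ← h, Homeomorph.symm_apply_apply]
  one_mem' := ⟨1, one_mem _, fun z => by simp [mob_one]⟩
  inv_mem' := by
    rintro a ⟨γ, hγ, h⟩
    refine ⟨γ⁻¹, inv_mem hγ, fun z => ?_⟩
    have h1 := h (w (mob γ⁻¹ (w.symm z)))
    rw [Homeomorph.symm_apply_apply, mob_inv', Homeomorph.apply_symm_apply] at h1
    conv_rhs => rw [h1, mob_inv]

end Pool.Agent.H711R3
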