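import Pool.Agent.H711R3.Group

set_option autoImplicit false

open UpperHalfPlane Filter
open scoped MatrixGroups Topology ComplexConjugate ENNReal

namespace Pool.Agent.H711R3

namespace Cfg

variable {C : Cfg}

theorem red_inj (hb : ∀ i, 4 * C.r i ≤ |C.c i|) : ∀ {l m : List ℕ}, Red l → Red m →
    C.word l • I = C.word m • I → l = m := by
  have hI := C.I_mem hb
  have hI' : ∀ i, C.r i < C.nd i I := fun i => by
    have := C.nd_I_sub hb i
    linarith
  intro l
  induction l with
  | nil =>
    intro m _ hm h
    cases m with
    | nil => rfl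
    | cons j m =>
      exfalso
      have h1 := (C.ping hm hI).1
      rw [← h, word_nil, one_smul] at h1
      exact absurd (hI' j) (not_lt.mpr h1)
  | cons i l ih =>
    intro m hl hm h
    cases m with
    | nil =>
      exfalso
      have h1 := (C.ping hl hI).1
      rw [h, word_nil, one_smul] at h1
      exact absurd (hI' i) (not_lt.mpr h1)
    | cons j m =>
      have h1 := (C.ping hl hI).1
      have h2 := (C.ping hm hI).1
      rw [h] at h1
      have hij : i = j := by
        by_contra hne
        exact absurd (C.lt_nd_of_le hne h2) (not_lt.mpr h1)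
      subst hij
      rw [word_cons_smul, word_cons_smul] at h
      have h3 := congrArg (fun z => C.ρ i • z) h
      simp only [ρ_smul_smul] at h3
      rw [ih hl.tail hm.tail h3]

/-- The words of the free semigroup generated by `ρ₀ρ₁` and `ρ₀ρ₂`. -/
def sw : List Bool → List ℕ
  | [] => []
  | b :: l => 0 :: (if b then 1 else 2) :: sw l

theorem sw_even (l : List Bool) : Even (sw l).length := by
  induction l with
  | nil => simp [sw]
  | cons b l ih =>
    rw [sw, List.length_cons, List.length_cons, Nat.even_add_one, Nat.even_add_one, not_not]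
    exact ih

theorem sw_red (l : List Bool) : Red (sw l) := by
  induction l with
  | nil => exact red_nil
  | cons b l ih =>
    rw [sw]
    refine red_cons.mpr ⟨by split_ifs <;> norm_num, ?_⟩
    cases l with
    | nil => exact red_singleton _
    | cons b' l =>
      rw [sw] at ih ⊢
      exact red_cons.mpr ⟨by split_ifs <;> norm_num, ih⟩

theorem sw_injective : Function.Injective sw := by
  intro l
  induction l with
  | nil =>
    intro m h
    cases m with
    | nil => rfl
    | cons b m => simp [sw] at h
  | cons b l ih =>
    intro m h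
    cases m with
    | nil => simp [sw] at h
    | cons b' m =>
      simp only [sw, List.cons.injEq, true_and] at h
      have h1 := ih h.2
      have h2 : b = b' := by
        cases b <;> cases b' <;> simp at h ⊢
      rw [h1, h2]

theorem dist_word' (l : List ℕ) (z w : ℍ) : dist (C.word l • z) (C.word l • w) = dist z w := by
  induction l with
  | nil => simp
  | cons i l ih => rw [word_cons_smul, word_cons_smul, ρ, dist_refl, ih]

variable (C) in
/-- The displacement of the two generators of the semigroup. -/
noncomputable def disp : ℝ :=
  max 1 (max (dist I (C.word [0, 1] • I)) (dist I (C.word [0, 2] • I)))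

theorem one_le_disp : 1 ≤ C.disp := le_max_left _ _

theorem dist_sw_le (l : List Bool) : dist I (C.word (sw l) • I) ≤ l.length * C.disp := by
  induction l with
  | nil => simp [sw]
  | cons b l ih =>
    have h1 : sw (b :: l) = [0, if b then 1 else 2] ++ sw l := rfl
    rw [h1, word_append, mul_smul]
    refine (dist_triangle _ (C.word [0, if b then 1 else 2] • I) _).trans ?_
    rw [dist_word']
    have h2 : dist I (C.word [0, if b then 1 else 2] • I) ≤ C.disp := by
      unfold disp
      cases b
      · exact le_max_of_le_right (le_max_right _ _)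
      · exact le_max_of_le_right (le_max_left _ _)
    rw [List.length_cons]
    push_cast
    linarith

theorem le_of_summable (hb : ∀ i, 4 * C.r i ≤ |C.c i|) {s : ℝ} (hs : 0 < s)
    (h : Summable fun γ : C.grp => Real.exp (-s * dist I (mob γ I))) :
    Real.log 2 / C.disp ≤ s := by
  set D := C.disp with hD
  have hD0 : 0 < D := lt_of_lt_of_le one_pos one_le_disp
  set T := ∑' γ : C.grp, Real.exp (-s * dist I (mob γ I)) with hT
  -- the elements of the semigroup
  have hex : ∀ l : List Bool, ∃ g : C.grp, ∀ z, mob g z = C.word (sw l) • z := by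
    intro l
    obtain ⟨g, hg⟩ := C.exists_psl (sw_even l)
    exact ⟨⟨g, _, sw_even l, hg⟩, hg⟩
  choose g hg using hex
  have hginj : Function.Injective g := by
    intro l m hlm
    apply sw_injective
    apply red_inj hb (sw_red l) (sw_red m)
    rw [← hg, ← hg, hlm]
  have key : ∀ n : ℕ, (2 * Real.exp (-s * D)) ^ n ≤ T := by
    intro n
    have hf : Function.Injective fun b : Fin n → Bool => g (List.ofFn b) :=
      hginj.comp List.ofFn_injective
    have h1 : ∑ b : Fin n → Bool, Real.exp (-s * dist I (mob (g (List.ofFn b)) I)) ≤ T := by
      have := h.sum_le_tsum (Finset.univ.map ⟨_, hf⟩) (fun _ _ => (Real.exp_pos _).le)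
      rw [Finset.sum_map] at this
      exact this
    refine le_trans ?_ h1
    have h2 : ∀ b : Fin n → Bool, Real.exp (-s * D) ^ n ≤
        Real.exp (-s * dist I (mob (g (List.ofFn b)) I)) := by
      intro b
      rw [← Real.exp_nat_mul, hg]
      refine Real.exp_le_exp.mpr ?_
      have h3 := dist_sw_le (C := C) (List.ofFn b)
      rw [List.length_ofFn] at h3
      have := mul_le_mul_of_nonneg_left h3 hs.le
      linarith
    calc (2 * Real.exp (-s * D)) ^ n = 2 ^ n * Real.exp (-s * D) ^ n := by rw [mul_pow]
      _ = ∑ _b : Fin n → Bool, Real.exp (-s * D) ^ n := by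
        rw [Finset.sum_const, Finset.card_univ, Fintype.card_fun, Fintype.card_bool,
          Fintype.card_fin, nsmul_eq_mul]
        push_cast
        rfl
      _ ≤ _ := Finset.sum_le_sum fun b _ => h2 b
  by_contra hc
  push Not at hc
  rw [lt_div_iff₀ hD0] at hc
  have h1 : 1 < 2 * Real.exp (-s * D) := by
    have h2 : Real.exp (s * D) < 2 := by
      rw [← Real.exp_log (show (0 : ℝ) < 2 by norm_num)]
      exact Real.exp_lt_exp.mpr hc
    have h3 : -s * D = -(s * D) := by ring
    rw [h3, Real.exp_neg, ← div_eq_mul_inv, one_lt_div (Real.exp_pos _)]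
    exact h2
  obtain ⟨n, hn⟩ := pow_unbounded_of_one_lt T h1
  exact absurd (key n) (not_le.mpr hn)

theorem Conv.le_criticalExponent {s : ℝ} (h : C.Conv s) :
    Real.log 2 / C.disp ≤ criticalExponent C.grp :=
  le_csInf ⟨s, h.mem⟩ fun _ ht => le_of_summable h.base ht.1 ht.2

end Cfg

end Pool.Agent.H711R3
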