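import Pool.Agent.H711R3.QC

set_option autoImplicit false

open UpperHalfPlane Filter
open scoped MatrixGroups Topology ComplexConjugate ENNReal

namespace Pool.Agent.H711R3

/-- The reflection, as a map of the complex plane. -/
noncomputable def RC (c r : ℝ) (y : ℂ) : ℂ := c + (r : ℂ) ^ 2 / (conj y - c)

theorem RC_coe (c r : ℝ) (hr : 0 < r) (z : ℍ) : RC c r z = ((refl c r hr • z : ℍ) : ℂ) := by
  rw [coe_refl_smul]; rfl

theorem hasFDerivAt_RC (c r : ℝ) {y : ℂ} (hy : conj y - c ≠ 0) :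
    ∃ (T : ℂ →L[ℝ] ℂ) (a : ℂ), HasFDerivAt (RC c r) T y ∧ a = -(r : ℂ) ^ 2 / (conj y - c) ^ 2 ∧
      ∀ v, T v = a * conj v := by
  have h1 : HasDerivAt (fun u : ℂ => (c : ℂ) + (r : ℂ) ^ 2 / (u - c))
      (-(r : ℂ) ^ 2 / (conj y - c) ^ 2) (conj y) := by
    have h2 : HasDerivAt (fun u : ℂ => u - (c : ℂ)) 1 (conj y) := (hasDerivAt_id _).sub_const _
    have h3 := ((hasDerivAt_const (conj y) ((r : ℂ) ^ 2)).fun_div h2 hy).const_add (c : ℂ)
    have e : -(r : ℂ) ^ 2 / (conj y - c) ^ 2 =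
      (0 * (conj y - c) - (r : ℂ) ^ 2 * 1) / (conj y - c) ^ 2 := by ring
    rw [e]
    exact h3
  have h4 : HasFDerivAt (fun y : ℂ => conj y) (Complex.conjCLE : ℂ →L[ℝ] ℂ) y :=
    Complex.conjCLE.hasFDerivAt
  have h5 := h1.hasFDerivAt.restrictScalars ℝ
  have h6 := HasFDerivAt.comp (g := fun u : ℂ => (c : ℂ) + (r : ℂ) ^ 2 / (u - c))
    (f := fun y : ℂ => conj y) y h5 h4
  refine ⟨_, _, h6, rfl, fun v => ?_⟩
  simp
  ring

theorem contDiffAt_RC (c r : ℝ) {y : ℂ} (hy : conj y - c ≠ 0) : ContDiffAt ℝ 1 (RC c r) y := by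
  have h1 : RC c r = fun y : ℂ => (c : ℂ) + (r : ℂ) ^ 2 * (conj y - c)⁻¹ := by
    funext y; rw [RC, div_eq_mul_inv]
  rw [h1]
  have h2 : ContDiffAt ℝ 1 (fun y : ℂ => conj y - (c : ℂ)) y :=
    (Complex.conjCLE.contDiff.contDiffAt).sub contDiffAt_const
  exact contDiffAt_const.add (contDiffAt_const.mul (h2.inv hy))

theorem read_coe (w : ℍ → ℍ) (z : ℍ) : read w z = (w z : ℂ) := by
  unfold read
  rw [ofComplex_apply]

/-- The condition `QCAt` is preserved by an equivariance relation. -/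
theorem QCAt.refl_smul {k : ℝ} {w : ℍ → ℍ} {c r c' r' : ℝ} {hr : 0 < r} {hr' : 0 < r'}
    (hw : ∀ z : ℍ, w (refl c r hr • z) = refl c' r' hr' • w z) {z : ℍ}
    (h : QCAt k (read w) z) : QCAt k (read w) ((refl c r hr • z : ℍ) : ℂ) := by
  set z' : ℍ := refl c r hr • z with hz'
  have hz : refl c r hr • z' = z := refl_smul_smul _ _ _ _
  have hRz : RC c r z' = z := by rw [RC_coe c r hr, hz]
  -- local formula
  have hloc : (fun y : ℂ => RC c' r' (read w (RC c r y))) =ᶠ[𝓝 (z' : ℂ)] read w := by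
    have h1 : ∀ᶠ y : ℂ in 𝓝 (z' : ℂ), 0 < y.im :=
      (Complex.continuous_im.continuousAt).eventually (lt_mem_nhds z'.im_pos)
    filter_upwards [h1] with y hy
    obtain ⟨y', rfl⟩ : ∃ y' : ℍ, (y' : ℂ) = y := ⟨⟨y, hy⟩, rfl⟩
    rw [RC_coe c r hr, read_coe, read_coe, RC_coe c' r' hr', ← hw, refl_smul_smul]
  refine QCAt.congr ?_ hloc
  obtain ⟨T1, a, hT1, ha, hT1'⟩ := hasFDerivAt_RC c r (y := (z' : ℂ)) (conj_sub_ne c z')
  have hFz : DifferentiableAt ℝ (read w) z := h.1.differentiableAt one_ne_zero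
  obtain ⟨T2, a', hT2, ha', hT2'⟩ := hasFDerivAt_RC c' r' (y := ((w z : ℍ) : ℂ))
    (conj_sub_ne c' (w z))
  have hF : HasFDerivAt (read w) (fderiv ℝ (read w) z) (RC c r z') := by
    rw [hRz]; exact hFz.hasFDerivAt
  have hG : HasFDerivAt (RC c' r') T2 (read w (RC c r z')) := by
    rw [hRz, read_coe]; exact hT2
  have hcomp := hG.comp (z' : ℂ) (hF.comp (z' : ℂ) hT1)
  constructor
  · have c1 : ContDiffAt ℝ 1 (RC c r) (z' : ℂ) := contDiffAt_RC c r (conj_sub_ne c z')
    have c2 : ContDiffAt ℝ 1 (read w) (RC c r z') := by rw [hRz]; exact h.1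
    have c3 : ContDiffAt ℝ 1 (RC c' r') (read w (RC c r z')) := by
      rw [hRz, read_coe]; exact contDiffAt_RC c' r' (conj_sub_ne c' (w z))
    have c4 : ContDiffAt ℝ 1 (RC c' r' ∘ (read w ∘ RC c r)) (z' : ℂ) :=
      ContDiffAt.comp (g := RC c' r') (f := read w ∘ RC c r) (z' : ℂ) c3
        (ContDiffAt.comp (g := read w) (f := RC c r) (z' : ℂ) c2 c1)
    exact c4
  · have hf : fderiv ℝ (fun y : ℂ => RC c' r' (read w (RC c r y))) (z' : ℂ) =
        T2.comp ((fderiv ℝ (read w) z).comp T1) := hcomp.fderiv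
    rw [hf]
    have hv : ∀ v, (T2.comp ((fderiv ℝ (read w) z).comp T1)) v =
        a' * conj ((fderiv ℝ (read w) z) (a * conj v)) := by
      intro v
      simp [hT1', hT2']
    obtain ⟨e1, e2⟩ := al_comp hv
    rw [e1, e2, norm_mul, norm_mul, norm_mul, norm_mul, Complex.norm_conj, Complex.norm_conj,
      Complex.norm_conj]
    have h2 := h.2
    have : ‖a'‖ * ‖be (fderiv ℝ (read w) z)‖ ≤ ‖a'‖ * (k * ‖al (fderiv ℝ (read w) z)‖) :=
      mul_le_mul_of_nonneg_left h2 (norm_nonneg _)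
    calc ‖a'‖ * ‖be (fderiv ℝ (read w) z)‖ * ‖a‖
        ≤ ‖a'‖ * (k * ‖al (fderiv ℝ (read w) z)‖) * ‖a‖ :=
          mul_le_mul_of_nonneg_right this (norm_nonneg _)
      _ = _ := by ring

/-- The stretch, on the complex plane. -/
noncomputable def SC (L : ℝ) (z : ℂ) : ℂ :=
  (Real.exp (L * Real.smoothTransition (z.re / z.im)) : ℝ) * z

theorem read_stretch {L : ℝ} {z : ℂ} (hz : 0 < z.im) : read (stretch L) z = SC L z := by
  obtain ⟨z', rfl⟩ : ∃ z' : ℍ, (z' : ℂ) = z := ⟨⟨z, hz⟩, rfl⟩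
  rw [read_coe, coe_stretch]
  rfl

theorem exists_bound_deriv : ∃ A : ℝ, 0 ≤ A ∧ ∀ t : ℝ,
    |deriv Real.smoothTransition t * (1 + t ^ 2)| ≤ A := by
  have hc : Continuous fun t : ℝ => |deriv Real.smoothTransition t * (1 + t ^ 2)| := by
    have h1 : Continuous (deriv Real.smoothTransition) :=
      (Real.smoothTransition.contDiff (n := 1)).continuous_deriv le_rfl
    fun_prop
  obtain ⟨M, hM⟩ := (isCompact_Icc (a := (0 : ℝ)) (b := 1)).bddAbove_image hc.continuousOn
  refine ⟨max M 0, le_max_right _ _, fun t => ?_⟩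
  by_cases ht : t ∈ Set.Icc (0 : ℝ) 1
  · exact le_trans (hM (Set.mem_image_of_mem _ ht)) (le_max_left _ _)
  · have hd : deriv Real.smoothTransition t = 0 := by
      rw [Set.mem_Icc, not_and_or, not_le, not_le] at ht
      rcases ht with ht | ht
      · have : Real.smoothTransition =ᶠ[𝓝 t] fun _ => 0 := by
          filter_upwards [gt_mem_nhds ht] with s hs
          exact Real.smoothTransition.zero_of_nonpos (le_of_lt hs)
        rw [this.deriv_eq]; simp
      · have : Real.smoothTransition =ᶠ[𝓝 t] fun _ => 1 := by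
          filter_upwards [lt_mem_nhds ht] with s hs
          exact Real.smoothTransition.one_of_one_le (le_of_lt hs)
        rw [this.deriv_eq]; simp
    rw [hd]
    simp

theorem contDiffAt_SC (L : ℝ) {z : ℂ} (hz : 0 < z.im) : ContDiffAt ℝ 1 (SC L) z := by
  unfold SC
  have h1 : ContDiffAt ℝ 1 (fun z : ℂ => z.re / z.im) z :=
    (Complex.reCLM.contDiff.contDiffAt).div (Complex.imCLM.contDiff.contDiffAt) hz.ne'
  have h2 : ContDiffAt ℝ 1 (fun z : ℂ => Real.exp (L * Real.smoothTransition (z.re / z.im))) z :=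
    (contDiffAt_const.mul ((Real.smoothTransition.contDiff (n := 1)).contDiffAt.comp z h1)).exp
  exact (Complex.ofRealCLM.contDiff.contDiffAt.comp z h2).mul contDiffAt_id

theorem QCAt_SC (L : ℝ) : ∃ k : ℝ, 0 ≤ k ∧ k < 1 ∧ ∀ z : ℂ, 0 < z.im → QCAt k (SC L) z := by
  obtain ⟨A, hA0, hA⟩ := exists_bound_deriv
  set B := |L| * A / 2 with hB
  have hB0 : 0 ≤ B := by positivity
  have hs : 0 < √(1 + B ^ 2) := Real.sqrt_pos.mpr (by positivity)
  refine ⟨B / √(1 + B ^ 2), by positivity, ?_, fun z hz => ⟨contDiffAt_SC L hz, ?_⟩⟩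
  · rw [div_lt_one hs]
    apply Real.lt_sqrt_of_sq_lt
    linarith
  · set x := z.re with hx
    set y := z.im with hy
    set φ' := deriv Real.smoothTransition (x / y) with hφ'
    set E := Real.exp (L * Real.smoothTransition (x / y)) with hE
    have hE0 : 0 < E := Real.exp_pos _
    -- partial derivatives
    have hd1 : HasDerivAt (fun t : ℝ => SC L (z + t)) (E * (1 + L * φ' / y * z)) 0 := by
      have e1 : HasDerivAt (fun t : ℝ => (x + t) / y) (1 / y) 0 := by
        have := ((hasDerivAt_id (0 : ℝ)).const_add x).div_const y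
        simpa using this
      have e2 : HasDerivAt Real.smoothTransition φ' ((x + 0) / y) := by
        rw [add_zero]
        exact ((Real.smoothTransition.contDiff (n := 1)).differentiable one_ne_zero _).hasDerivAt
      have e3 := (e2.comp (0 : ℝ) e1)
      have e4 := (e3.const_mul L).exp
      have e5 : HasDerivAt (fun t : ℝ => ((Real.exp (L * Real.smoothTransition ((x + t) / y)) : ℝ) : ℂ))
          ((E * (L * (φ' * (1 / y))) : ℝ) : ℂ) 0 := by
        have := e4.ofReal_comp
        simpa [Function.comp_def, hE] using this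
      have e6 : HasDerivAt (fun t : ℝ => z + (t : ℂ)) 1 0 := by
        simpa using (Complex.ofRealCLM.hasDerivAt (x := (0 : ℝ))).const_add z
      have e7 := e5.fun_mul e6
      have e8 : (fun t : ℝ => SC L (z + t)) = fun t : ℝ =>
          ((Real.exp (L * Real.smoothTransition ((x + t) / y)) : ℝ) : ℂ) * (z + t) := by
        funext t
        simp [SC, hx, hy]
      rw [e8]
      refine e7.congr_deriv ?_
      simp only [add_zero, Complex.ofReal_zero, hE]
      push_cast
      ring
    have hd2 : HasDerivAt (fun t : ℝ => SC L (z + t * Complex.I))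
        (E * (Complex.I - L * φ' * x / y ^ 2 * z)) 0 := by
      have e1 : HasDerivAt (fun t : ℝ => x / (y + t)) (-x / y ^ 2) 0 := by
        have h1 : HasDerivAt (fun t : ℝ => y + t) 1 0 := (hasDerivAt_id (0 : ℝ)).const_add y
        have := (hasDerivAt_const (0 : ℝ) x).fun_div h1 (by simpa using hz.ne')
        simpa using this
      have e2 : HasDerivAt Real.smoothTransition φ' (x / (y + 0)) := by
        rw [add_zero]
        exact ((Real.smoothTransition.contDiff (n := 1)).differentiable one_ne_zero _).hasDerivAt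
      have e3 := (e2.comp (0 : ℝ) e1)
      have e4 := (e3.const_mul L).exp
      have e5 : HasDerivAt (fun t : ℝ => ((Real.exp (L * Real.smoothTransition (x / (y + t))) : ℝ) : ℂ))
          ((E * (L * (φ' * (-x / y ^ 2))) : ℝ) : ℂ) 0 := by
        have := e4.ofReal_comp
        simpa [Function.comp_def, hE] using this
      have e6 : HasDerivAt (fun t : ℝ => z + (t : ℂ) * Complex.I) Complex.I 0 := by
        have := ((Complex.ofRealCLM.hasDerivAt (x := (0 : ℝ))).mul_const Complex.I).const_add z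
        simpa using this
      have e7 := e5.fun_mul e6
      have e8 : (fun t : ℝ => SC L (z + t * Complex.I)) = fun t : ℝ =>
          ((Real.exp (L * Real.smoothTransition (x / (y + t))) : ℝ) : ℂ) * (z + t * Complex.I) := by
        funext t
        simp [SC, hx, hy]
      rw [e8]
      refine e7.congr_deriv ?_
      simp only [add_zero, Complex.ofReal_zero, zero_mul, hE]
      push_cast
      ring
    have hdiff : DifferentiableAt ℝ (SC L) z := (contDiffAt_SC L hz).differentiableAt one_ne_zero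
    rw [← dz_eq hdiff, ← dzbar_eq hdiff, dz, dzbar, hd1.deriv, hd2.deriv]
    have hzz : z = x + y * Complex.I := (Complex.re_add_im z).symm
    have hy0 : (y : ℂ) ≠ 0 := by exact_mod_cast hz.ne'
    have hI : Complex.I ^ 2 = -1 := Complex.I_sq
    set a : ℝ := L * (φ' * (1 + (x / y) ^ 2)) / 2 with ha
    have hal : ((E : ℂ) * (1 + L * φ' / y * z) - Complex.I * (E * (Complex.I - L * φ' * x / y ^ 2 * z))) / 2 =
        E * (1 + a * Complex.I) := by
      rw [ha, hzz]
      push_cast
      field_simp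
      linear_combination ((E : ℂ) * y * L * φ' * x - E * y ^ 2) * hI
    have hbe : ((E : ℂ) * (1 + L * φ' / y * z) + Complex.I * (E * (Complex.I - L * φ' * x / y ^ 2 * z))) / 2 =
        E * (-Complex.I * (L * φ' / 2) * (z / y) ^ 2) := by
      rw [hzz]
      field_simp
      ring_nf
      rw [show Complex.I ^ 3 = Complex.I ^ 2 * Complex.I by ring, hI]
      ring
    rw [hal, hbe, norm_mul (E : ℂ), norm_mul (E : ℂ), Complex.norm_real, Real.norm_eq_abs,
      abs_of_pos hE0]
    have hn1 : ‖-Complex.I * ((L : ℂ) * φ' / 2) * (z / y) ^ 2‖ = |a| := by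
      have hg : ∀ q w : ℂ, ‖-Complex.I * q * w ^ 2‖ = ‖q‖ * ‖w‖ ^ 2 := by
        intro q w
        rw [norm_mul, norm_mul, norm_neg, Complex.norm_I, one_mul, norm_pow]
      have : ‖(L : ℂ) * φ' / 2‖ = |L * φ' / 2| := by
        rw [← Real.norm_eq_abs, ← Complex.norm_real]; push_cast; rfl
      rw [hg, this, norm_div, Complex.norm_real, Real.norm_eq_abs, abs_of_pos hz, div_pow, Complex.sq_norm,
        Complex.normSq_apply, ← hx, ← hy, ha]
      have h3 : (x * x + y * y) / y ^ 2 = 1 + (x / y) ^ 2 := by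
        field_simp; ring
      rw [h3, show L * (φ' * (1 + (x / y) ^ 2)) / 2 = (L * φ' / 2) * (1 + (x / y) ^ 2) by ring,
        abs_mul, abs_of_pos (by positivity : 0 < 1 + (x / y) ^ 2)]
    have hn2 : ‖(1 : ℂ) + a * Complex.I‖ = √(1 + a ^ 2) := by
      rw [Complex.norm_def, Complex.normSq_apply]
      simp
      ring_nf
    rw [hn1, hn2]
    have haB : |a| ≤ B := by
      rw [ha, hB, abs_div, abs_mul, abs_two]
      have := hA (x / y)
      have h2 : |L| * |φ' * (1 + (x / y) ^ 2)| ≤ |L| * A :=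
        mul_le_mul_of_nonneg_left this (abs_nonneg _)
      linarith
    have hkey : |a| ≤ B / √(1 + B ^ 2) * √(1 + a ^ 2) := by
      rw [div_mul_eq_mul_div, le_div_iff₀ hs]
      have h1 : |a| * √(1 + B ^ 2) = √(a ^ 2 * (1 + B ^ 2)) := by
        rw [Real.sqrt_mul (sq_nonneg a), Real.sqrt_sq_eq_abs]
      have h2 : B * √(1 + a ^ 2) = √(B ^ 2 * (1 + a ^ 2)) := by
        rw [Real.sqrt_mul (sq_nonneg B), Real.sqrt_sq hB0]
      rw [h1, h2]
      apply Real.sqrt_le_sqrt
      have : a ^ 2 ≤ B ^ 2 := by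
        rw [← sq_abs a]
        exact pow_le_pow_left₀ (abs_nonneg _) haB 2
      nlinarith
    calc E * |a| ≤ E * (B / √(1 + B ^ 2) * √(1 + a ^ 2)) := mul_le_mul_of_nonneg_left hkey hE0.le
      _ = _ := by ring

namespace Cfg

variable {C C' : Cfg} {L : ℝ}

theorem Rel.quasiconformal (h : Rel L C C')
    (hs : ∀ ε : ℝ, 0 < ε → {i | ε ≤ C.r i}.Finite) : IsQuasiconformal (h.homeo hs) := by
  obtain ⟨k, hk0, hk1, hk⟩ := QCAt_SC L
  refine isQuasiconformal_of_forall hk0 hk1 fun z => ?_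
  obtain ⟨l, p, hl, hp, rfl⟩ := C.exists_word z
  clear hl
  induction l with
  | nil =>
    rw [word_nil, one_smul]
    refine QCAt.congr (hk p p.im_pos) ?_
    have h1 := h.homeo_near hs hp
    have h2 : Tendsto ofComplex (𝓝 (p : ℂ)) (𝓝 p) := by
      have := (UpperHalfPlane.mdifferentiableAt_ofComplex p.im_pos).continuousAt
      have h3 : ContinuousAt ofComplex (p : ℂ) := this
      unfold ContinuousAt at h3
      rwa [ofComplex_apply] at h3
    have h3 : ∀ᶠ y : ℂ in 𝓝 (p : ℂ), 0 < y.im :=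
      (Complex.continuous_im.continuousAt).eventually (lt_mem_nhds p.im_pos)
    filter_upwards [h2.eventually h1, h3] with y hy hy0
    rw [← read_stretch hy0]
    unfold read
    rw [hy]
  | cons i l ih =>
    rw [word_cons_smul]
    refine QCAt.refl_smul (w := h.homeo hs) (c' := C'.c i) (r' := C'.r i) (hr' := C'.pos i) ?_ ?_
    · intro z
      have := h.homeo_word hs [i] z
      rw [word_cons, word_cons, word_nil, word_nil, mul_one, mul_one] at this
      exact this
    · exact ih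

end Cfg

end Pool.Agent.H711R3
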