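import Pool.Agent.H711R3.Conv
import Pool.Agent.H711R3.Lower
import Pool.Agent.H711R3.QC2

set_option autoImplicit false

open UpperHalfPlane Filter
open scoped MatrixGroups Topology ComplexConjugate ENNReal

namespace Pool.Agent.H711R3

theorem lam_zero (c : ℝ) : lam 0 c = 1 := by
  unfold lam; split_ifs <;> simp

/-- Bounds on all pairs. -/
theorem pair_sep {L : ℝ} (hL : 0 ≤ L) {δ e : ℕ → ℝ} {f : ℕ → ℝ × ℝ}
    (hf : ∀ n, Good L δ e n f (f n)) {M : ℝ} (hM : M = 0 ∨ M = L) {i j : ℕ} (hij : i ≠ j) :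
    SepD M (if 3 ≤ i ∨ 3 ≤ j then δ (max i j)
      else (if i = 0 ∨ j = 0 then 1 / (9 * Real.exp M) else 1 / 16)) (f i) (f j) := by
  by_cases h : 3 ≤ i ∨ 3 ≤ j
  · rw [if_pos h]
    rcases lt_or_gt_of_ne hij with hlt | hlt
    · rw [max_eq_right hlt.le]
      exact ((hf j).sep (by omega) i hlt M hM).1
    · rw [max_eq_left hlt.le]
      exact ((hf i).sep (by omega) j hlt M hM).2
  · rw [if_neg h]
    push Not at h
    rw [(hf i).ini h.1, (hf j).ini h.2]
    refine ini_sep ?_ h.1 h.2 hij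
    rcases hM with rfl | rfl
    · exact le_rfl
    · exact hL

/-- The configuration at the scale `M`. -/
noncomputable def mkCfg {L : ℝ} (hL : 0 ≤ L) {δ e : ℕ → ℝ} {f : ℕ → ℝ × ℝ} (hδ : ∀ n, δ n ≤ 1 / 16)
    (hf : ∀ n, Good L δ e n f (f n)) {M : ℝ} (hM : M = 0 ∨ M = L) : Cfg where
  c i := cc M (f i)
  r i := rr M (f i)
  pos i := mul_pos (lam_pos _ _) (hf i).pos
  gap i j hij := (pair_sep hL hf hM hij).lt
  gap4 i j hij := by
    have h := (pair_sep hL hf hM hij).le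
    have hM0 : 0 ≤ M := by
      rcases hM with rfl | rfl
      · exact le_rfl
      · exact hL
    have hE : 1 ≤ Real.exp M := Real.one_le_exp hM0
    have h2 : (if 3 ≤ i ∨ 3 ≤ j then δ (max i j)
      else (if i = 0 ∨ j = 0 then 1 / (9 * Real.exp M) else 1 / 16)) ≤ 1 / 4 := by
      split_ifs
      · have := hδ (max i j); linarith
      · rw [div_le_div_iff₀ (by positivity) (by norm_num)]
        linarith
      · norm_num
    have h3 := mul_le_mul_of_nonneg_right h2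
      (sq_nonneg (|cc M (f i) - cc M (f j)| - rr M (f j)))
    linarith

variable {L : ℝ} {hL : 0 ≤ L} {δ e : ℕ → ℝ} {f : ℕ → ℝ × ℝ} {hδ : ∀ n, δ n ≤ 1 / 16}
  {hf : ∀ n, Good L δ e n f (f n)}

theorem mkCfg_base {M : ℝ} (hM : M = 0 ∨ M = L) (i : ℕ) :
    4 * (mkCfg hL hδ hf hM).r i ≤ |(mkCfg hL hδ hf hM).c i| := by
  show 4 * (lam M (f i).1 * (f i).2) ≤ |lam M (f i).1 * (f i).1|
  rw [abs_mul, abs_of_pos (lam_pos _ _)]
  have := mul_le_mul_of_nonneg_left (hf i).base (lam_pos M (f i).1).le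
  linarith

theorem mkCfg_rel : Cfg.Rel L (mkCfg hL hδ hf (Or.inl rfl)) (mkCfg hL hδ hf (Or.inr rfl)) where
  base := mkCfg_base (Or.inl rfl)
  c_eq i := by
    show lam L (f i).1 * (f i).1 = lam L (lam 0 (f i).1 * (f i).1) * (lam 0 (f i).1 * (f i).1)
    rw [lam_zero, one_mul]
  r_eq i := by
    show lam L (f i).1 * (f i).2 = lam L (lam 0 (f i).1 * (f i).1) * (lam 0 (f i).1 * (f i).2)
    rw [lam_zero, one_mul, one_mul]

theorem mkCfg_conv {M : ℝ} (hM : M = 0 ∨ M = L) {s τ : ℝ} (hs : 0 < s) (hτ : 0 < τ)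
    (hqτ : (1 / 16 : ℝ) ^ s + 4 * τ ≤ 1) (hτM : (1 / (9 * Real.exp M)) ^ s ≤ τ)
    (hδ0 : ∀ n, 0 < δ n) (hδs : ∀ n, δ n ^ s ≤ τ * (1 / 4) ^ (n + 1)) :
    (mkCfg hL hδ hf hM).Conv s := by
  have hM0 : 0 ≤ M := by
    rcases hM with rfl | rfl
    · exact le_rfl
    · exact hL
  have hβ : ∀ i j, i ≠ j → (mkCfg hL hδ hf hM).β i j ≤ (if 3 ≤ i ∨ 3 ≤ j then δ (max i j)
      else (if i = 0 ∨ j = 0 then 1 / (9 * Real.exp M) else 1 / 16)) := fun i j hij =>
    Cfg.β_le hij (pair_sep hL hf hM hij).le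
  have hlam : ∀ c, lam M c ≤ Real.exp M := fun c => by
    unfold lam; split_ifs
    · exact le_rfl
    · exact Real.one_le_exp hM0
  have hr : ∀ i, 3 ≤ i → (mkCfg hL hδ hf hM).r i ≤ Real.exp M * δ i := fun i hi =>
    mul_le_mul (hlam _) ((hf i).le hi) (hf i).pos.le (Real.exp_pos _).le
  refine Cfg.conv_of (q := (1 / 16 : ℝ) ^ s) (τ := τ) (K := Real.exp M ^ s * τ) hs (by positivity) hτ
    hqτ (mkCfg_base hM) ?_ ?_ ?_ ?_ ?_
  · intro i j hi hj hij h0
    have h1 := hβ i j hij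
    rw [if_neg (by omega), if_pos h0] at h1
    exact (Real.rpow_le_rpow (Cfg.β_nonneg _ _ _) h1 hs.le).trans hτM
  · intro i j hi hj hij h0
    have h1 := hβ i j hij
    rw [if_neg (by omega), if_neg h0] at h1
    exact Real.rpow_le_rpow (Cfg.β_nonneg _ _ _) h1 hs.le
  · intro i j hij h3
    have h1 := hβ i j hij
    rw [if_pos h3] at h1
    refine (Real.rpow_le_rpow (Cfg.β_nonneg _ _ _) h1 hs.le).trans ((hδs _).trans ?_)
    refine mul_le_mul_of_nonneg_left ?_ hτ.le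
    have h4 : ((1 : ℝ) / 4) ^ (max i j + 1) = (1 / 2) ^ (2 * (max i j + 1)) := by
      rw [pow_mul]; norm_num
    rw [h4]
    refine pow_le_pow_of_le_one (by norm_num) (by norm_num) ?_
    have := le_max_left i j
    omega
  · intro i hi
    have h1 := Real.rpow_le_rpow (Cfg.pos _ i).le (hr i hi) hs.le
    rw [Real.mul_rpow (Real.exp_pos _).le (hδ0 i).le] at h1
    refine h1.trans ?_
    have h2 := hδs i
    have h3 : τ * (1 / 4 : ℝ) ^ (i + 1) ≤ τ * (1 / 4) ^ i :=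
      mul_le_mul_of_nonneg_left (pow_le_pow_of_le_one (by norm_num) (by norm_num) (by omega)) hτ.le
    calc Real.exp M ^ s * δ i ^ s ≤ Real.exp M ^ s * (τ * (1 / 4) ^ i) :=
          mul_le_mul_of_nonneg_left (h2.trans h3) (by positivity)
      _ = _ := by ring
  · refine ⟨Real.exp M, fun i => ?_⟩
    by_cases hi : 3 ≤ i
    · refine (hr i hi).trans ?_
      have := hδ i
      nlinarith [Real.exp_pos M]
    · show lam M (f i).1 * (f i).2 ≤ Real.exp M
      have h1 : (f i).2 ≤ 1 := by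
        rw [(hf i).ini (by omega)]
        unfold ini; split_ifs <;> norm_num
      calc lam M (f i).1 * (f i).2 ≤ Real.exp M * 1 :=
            mul_le_mul (hlam _) h1 (hf i).pos.le (Real.exp_pos _).le
        _ = _ := mul_one _

theorem mkCfg_small (hδt : Tendsto δ atTop (𝓝 0)) :
    ∀ ε : ℝ, 0 < ε → {i | ε ≤ (mkCfg hL hδ hf (Or.inl rfl)).r i}.Finite := by
  intro ε hε
  have h1 := hδt.eventually (gt_mem_nhds hε)
  rw [eventually_atTop] at h1
  obtain ⟨N, hN⟩ := h1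
  refine (Set.finite_lt_nat (N + 3)).subset fun i hi => ?_
  rw [Set.mem_ofPred_eq] at hi ⊢
  by_contra hc
  push Not at hc
  have h2 := hN i (by omega)
  have h3 := (hf i).le (by omega)
  have h4 : (mkCfg hL hδ hf (Or.inl rfl)).r i = (f i).2 := by
    show lam 0 (f i).1 * (f i).2 = (f i).2
    rw [lam_zero, one_mul]
  linarith

theorem mkCfg_dense (hδt : Tendsto δ atTop (𝓝 0))
    (he : ∀ x y : ℝ, x < y → ∃ n, 3 ≤ n ∧ x < e n ∧ e n < y ∧ e n ≠ 0) :
    (mkCfg hL hδ hf (Or.inl rfl)).Dense where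
  base := mkCfg_base (Or.inl rfl)
  small := mkCfg_small hδt
  dense x y hxy := by
    obtain ⟨n, hn, h1, h2, h3⟩ := he x y hxy
    have hc : ∀ i, (mkCfg hL hδ hf (Or.inl rfl)).c i = (f i).1 := fun i => by
      show lam 0 (f i).1 * (f i).1 = (f i).1
      rw [lam_zero, one_mul]
    have hr : ∀ i, (mkCfg hL hδ hf (Or.inl rfl)).r i = (f i).2 := fun i => by
      show lam 0 (f i).1 * (f i).2 = (f i).2
      rw [lam_zero, one_mul]
    rcases (hf n).cover hn h3 with h | ⟨i, _, h⟩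
    · exact ⟨n, e n, h1, h2, by rw [hc, hr]; exact h⟩
    · exact ⟨i, e n, h1, h2, by rw [hc, hr]; exact h⟩

/-- The displacement constant, which depends only on the first three discs. -/
noncomputable def D₀ : ℝ :=
  max 1 (max (dist I ((refl (-1) (1 / 4) (by norm_num) * refl 1 (1 / 4) (by norm_num)) • I))
    (dist I ((refl (-1) (1 / 4) (by norm_num) * refl 4 1 (by norm_num)) • I)))

theorem mkCfg_disp : (mkCfg hL hδ hf (Or.inl rfl)).disp = D₀ := by
  have hc : ∀ i, (mkCfg hL hδ hf (Or.inl rfl)).c i = (f i).1 := fun i => by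
    show lam 0 (f i).1 * (f i).1 = (f i).1
    rw [lam_zero, one_mul]
  have hr : ∀ i, (mkCfg hL hδ hf (Or.inl rfl)).r i = (f i).2 := fun i => by
    show lam 0 (f i).1 * (f i).2 = (f i).2
    rw [lam_zero, one_mul]
  have f0 : f 0 = (-1, 1 / 4) := (hf 0).ini (by norm_num)
  have f1 : f 1 = (1, 1 / 4) := (hf 1).ini (by norm_num)
  have f2 : f 2 = (4, 1) := (hf 2).ini (by norm_num)
  have h0 : (mkCfg hL hδ hf (Or.inl rfl)).ρ 0 = refl (-1) (1 / 4) (by norm_num) := by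
    unfold Cfg.ρ
    congr 1
    · rw [hc, f0]
    · rw [hr, f0]
  have h1 : (mkCfg hL hδ hf (Or.inl rfl)).ρ 1 = refl 1 (1 / 4) (by norm_num) := by
    unfold Cfg.ρ
    congr 1
    · rw [hc, f1]
    · rw [hr, f1]
  have h2 : (mkCfg hL hδ hf (Or.inl rfl)).ρ 2 = refl 4 1 (by norm_num) := by
    unfold Cfg.ρ
    congr 1
    · rw [hc, f2]
    · rw [hr, f2]
  unfold Cfg.disp D₀
  rw [Cfg.word_cons, Cfg.word_cons, Cfg.word_cons, Cfg.word_cons, Cfg.word_nil, mul_one, mul_one,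
    h0, h1, h2]

theorem isQuasiconformal_refl : IsQuasiconformal (Homeomorph.refl ℍ) := by
  refine isQuasiconformal_of_forall (k := 0) le_rfl zero_lt_one fun z => ?_
  have h1 : QCAt 0 (fun z : ℂ => z) (z : ℂ) := by
    refine ⟨contDiffAt_id, ?_⟩
    have : fderiv ℝ (fun z : ℂ => z) (z : ℂ) = ContinuousLinearMap.id ℝ ℂ := fderiv_fun_id
    rw [this]
    simp [be]
  refine h1.congr ?_
  have h3 : ∀ᶠ y : ℂ in 𝓝 (z : ℂ), 0 < y.im :=
    (Complex.continuous_im.continuousAt).eventually (lt_mem_nhds z.im_pos)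
  filter_upwards [h3] with y hy
  obtain ⟨y', rfl⟩ : ∃ y' : ℍ, (y' : ℂ) = y := ⟨⟨y, hy⟩, rfl⟩
  rw [read_coe]
  rfl

theorem conjBy_refl (Γ : Subgroup PSL(2, ℝ)) : conjBy (Homeomorph.refl ℍ) Γ = Γ := by
  ext γ'
  constructor
  · rintro ⟨γ, hγ, h⟩
    have : γ = γ' := mob_injective h
    rwa [← this]
  · intro h
    exact ⟨γ', h, fun z => rfl⟩

theorem refl_mem (Γ : Subgroup PSL(2, ℝ)) : Homeomorph.refl ℍ ∈ qcDeformations Γ :=
  ⟨isQuasiconformal_refl, fun γ _ => ⟨γ, fun _ => rfl⟩⟩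

namespace Cfg

variable {C C' : Cfg}

theorem Rel.mem (h : Rel L C C') (hs : ∀ ε : ℝ, 0 < ε → {i | ε ≤ C.r i}.Finite) :
    h.homeo hs ∈ qcDeformations C.grp := by
  refine ⟨h.quasiconformal hs, ?_⟩
  rintro γ ⟨l, hl, hγ⟩
  obtain ⟨γ', hγ'⟩ := C'.exists_psl hl
  refine ⟨γ', fun z => ?_⟩
  rw [hγ, h.homeo_word, Homeomorph.apply_symm_apply, hγ']

theorem Rel.conj (h : Rel L C C') (hs : ∀ ε : ℝ, 0 < ε → {i | ε ≤ C.r i}.Finite) :
    conjBy (h.homeo hs) C.grp = C'.grp := by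
  ext γ'
  constructor
  · rintro ⟨γ, ⟨l, hl, hγ⟩, hz⟩
    refine ⟨l, hl, fun z => ?_⟩
    rw [← hz, hγ, h.homeo_word, Homeomorph.apply_symm_apply]
  · rintro ⟨l, hl, hγ'⟩
    obtain ⟨γ, hγ⟩ := C.exists_psl hl
    refine ⟨γ, ⟨l, hl, hγ⟩, fun z => ?_⟩
    rw [hγ, h.homeo_word, Homeomorph.apply_symm_apply, hγ']

end Cfg

/-- **Main theorem.** The critical exponent is not constant on the quasiconformal deformation
space of some infinitely generated Fuchsian group of the first kind. -/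
theorem main : ∃ Γ₀ : Subgroup PSL(2, ℝ), IsInfGenFirstKind Γ₀ ∧
    ∃ w₁ ∈ qcDeformations Γ₀, ∃ w₂ ∈ qcDeformations Γ₀,
      0 < criticalExponent (conjBy w₂ Γ₀) ∧
      criticalExponent (conjBy w₂ Γ₀) < criticalExponent (conjBy w₁ Γ₀) ∧
      criticalExponent (conjBy w₁ Γ₀) ≤ 1 := by
  have hD : 1 ≤ D₀ := le_max_left _ _
  have hlog : 0 < Real.log 2 := Real.log_pos (by norm_num)
  set s := Real.log 2 / (2 * D₀) with hs
  have hs0 : 0 < s := by positivity
  have hs1 : s < Real.log 2 / D₀ := by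
    rw [hs]
    exact div_lt_div_of_pos_left hlog (by linarith) (by linarith)
  set q := (1 / 16 : ℝ) ^ s with hq
  have hq1 : q < 1 := Real.rpow_lt_one (by norm_num) (by norm_num) hs0
  set τ := (1 - q) / 4 with hτ
  have hτ0 : 0 < τ := by rw [hτ]; linarith
  -- the scale
  set L := |Real.log (τ ^ (1 / s))| with hLdef
  have hL : 0 ≤ L := abs_nonneg _
  have hτp : 0 < τ ^ (1 / s) := Real.rpow_pos_of_pos hτ0 _
  have hLτ : (1 / (9 * Real.exp L)) ^ s ≤ τ := by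
    have h1 : 1 / (9 * Real.exp L) ≤ τ ^ (1 / s) := by
      have h2 : 1 / (9 * Real.exp L) ≤ Real.exp (-L) := by
        rw [Real.exp_neg, one_div]
        exact inv_anti₀ (Real.exp_pos _) (by linarith [Real.exp_pos L])
      have h3 : Real.exp (-L) ≤ τ ^ (1 / s) := by
        rw [← Real.exp_log hτp]
        exact Real.exp_le_exp.mpr (neg_abs_le _)
      exact h2.trans h3
    calc (1 / (9 * Real.exp L)) ^ s ≤ (τ ^ (1 / s)) ^ s :=
          Real.rpow_le_rpow (by positivity) h1 hs0.le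
      _ = τ := by
        rw [← Real.rpow_mul hτ0.le, one_div_mul_cancel hs0.ne', Real.rpow_one]
  -- the bounds for the radii
  set δ : ℕ → ℝ := fun n => min (1 / 16) (min (1 / 9 * (1 / 4) ^ (n + 1))
    ((τ * (1 / 4) ^ (n + 1)) ^ (1 / s))) with hδdef
  have hδ0 : ∀ n, 0 < δ n := fun n => by
    rw [hδdef]
    simp only
    refine lt_min (by norm_num) (lt_min (by positivity) (by positivity))
  have hδ : ∀ n, δ n ≤ 1 / 16 := fun n => min_le_left _ _
  have hδ1 : ∀ n, δ n ≤ 1 / 9 * (1 / 4) ^ (n + 1) := fun n =>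
    (min_le_right _ _).trans (min_le_left _ _)
  have hδs : ∀ n, δ n ^ s ≤ τ * (1 / 4) ^ (n + 1) := fun n => by
    have h1 : δ n ≤ (τ * (1 / 4) ^ (n + 1)) ^ (1 / s) := (min_le_right _ _).trans (min_le_right _ _)
    calc δ n ^ s ≤ ((τ * (1 / 4) ^ (n + 1)) ^ (1 / s)) ^ s :=
          Real.rpow_le_rpow (hδ0 n).le h1 hs0.le
      _ = _ := by
        rw [← Real.rpow_mul (by positivity), one_div_mul_cancel hs0.ne', Real.rpow_one]
  have hδt : Tendsto δ atTop (𝓝 0) := by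
    refine squeeze_zero (fun n => (hδ0 n).le) hδ1 ?_
    have h1 : Tendsto (fun n : ℕ => (1 / 4 : ℝ) ^ (n + 1)) atTop (𝓝 0) :=
      (tendsto_pow_atTop_nhds_zero_of_lt_one (by norm_num) (by norm_num)).comp
        (tendsto_add_atTop_nat 1)
    have h2 := h1.const_mul (1 / 9 : ℝ)
    rwa [mul_zero] at h2
  set e : ℕ → ℝ := fun n => TopologicalSpace.denseSeq ℝ (n - 3) with he
  have hedense : ∀ x y : ℝ, x < y → ∃ n, 3 ≤ n ∧ x < e n ∧ e n < y ∧ e n ≠ 0 := by
    intro x y hxy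
    obtain ⟨x', y', hxy', h1, h2, h3⟩ : ∃ x' y' : ℝ, x' < y' ∧ x ≤ x' ∧ y' ≤ y ∧
        ∀ t, x' < t → t < y' → t ≠ 0 := by
      by_cases h : 0 < y
      · refine ⟨max x 0, y, max_lt hxy h, le_max_left _ _, le_rfl, fun t ht _ => ?_⟩
        exact (lt_of_le_of_lt (le_max_right _ _) ht).ne'
      · push Not at h
        exact ⟨x, y, hxy, le_rfl, le_rfl, fun t _ ht => (lt_of_lt_of_le ht h).ne⟩
    obtain ⟨t, ⟨ht1, ht2⟩, m, hm⟩ := (TopologicalSpace.denseRange_denseSeq ℝ).inter_open_nonempty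
      (Set.Ioo x' y') isOpen_Ioo (Set.nonempty_Ioo.mpr hxy')
    refine ⟨m + 3, by omega, ?_, ?_, ?_⟩
    · show x < TopologicalSpace.denseSeq ℝ (m + 3 - 3)
      rw [Nat.add_sub_cancel, hm]; linarith
    · show TopologicalSpace.denseSeq ℝ (m + 3 - 3) < y
      rw [Nat.add_sub_cancel, hm]; linarith
    · show TopologicalSpace.denseSeq ℝ (m + 3 - 3) ≠ 0
      rw [Nat.add_sub_cancel, hm]; exact h3 t ht1 ht2
  obtain ⟨f, hf⟩ := exists_good L (δ := δ) (e := e) hδ0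
  set C := mkCfg hL hδ hf (Or.inl rfl) with hC
  set C' := mkCfg hL hδ hf (Or.inr rfl) with hC'
  have hrel : Cfg.Rel L C C' := mkCfg_rel
  have hsmall := mkCfg_small (hL := hL) (hδ := hδ) (hf := hf) hδt
  have hdense : C.Dense := mkCfg_dense hδt hedense
  have hconv' : C'.Conv s := mkCfg_conv (Or.inr rfl) hs0 hτ0 (by rw [hτ]; linarith) hLτ hδ0 hδs
  have hconv : C.Conv 1 := by
    refine mkCfg_conv (τ := 1 / 9) (Or.inl rfl) one_pos (by norm_num) ?_ ?_ hδ0 ?_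
    · rw [Real.rpow_one]; norm_num
    · rw [Real.rpow_one, Real.exp_zero]; norm_num
    · intro n
      rw [Real.rpow_one]
      exact hδ1 n
  refine ⟨C.grp, ⟨hconv.discrete, hdense.limitSet, Cfg.not_fg hconv.base⟩,
    Homeomorph.refl ℍ, refl_mem _, hrel.homeo hsmall, hrel.mem hsmall, ?_⟩
  rw [conjBy_refl, hrel.conj]
  have h1 : criticalExponent C'.grp ≤ s := hconv'.criticalExponent_le
  have h2 : Real.log 2 / C.disp ≤ criticalExponent C.grp := hconv.le_criticalExponent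
  rw [mkCfg_disp] at h2
  refine ⟨?_, h1.trans_lt (hs1.trans_le h2), hconv.criticalExponent_le⟩
  have h3 : Real.log 2 / C'.disp ≤ criticalExponent C'.grp := hconv'.le_criticalExponent
  have h4 : 1 ≤ C'.disp := Cfg.one_le_disp
  have h5 : 0 < Real.log 2 / C'.disp := by positivity
  exact h5.trans_le h3

end Pool.Agent.H711R3
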