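import Pool.Agent.H711R3.Group

set_option autoImplicit false

open UpperHalfPlane Filter
open scoped MatrixGroups Topology ComplexConjugate ENNReal

namespace Pool.Agent.H711R3

namespace Cfg

variable (C : Cfg)

/-- The union of the discs is dense near the real line, and the radii tend to zero. -/
structure Dense : Prop where
  base : ∀ i, 4 * C.r i ≤ |C.c i|
  small : ∀ ε : ℝ, 0 < ε → {i | ε ≤ C.r i}.Finite
  dense : ∀ x y : ℝ, x < y → ∃ i, ∃ e, x < e ∧ e < y ∧ |e - C.c i| ≤ C.r i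

/-- Real limit points of the whole reflection group. -/
def Lim (ξ : ℝ) : Prop := ∀ ε : ℝ, 0 < ε → ∃ l : List ℕ, ‖((C.word l • I : ℍ) : ℂ) - ξ‖ < ε

variable {C}

theorem Dense.nd_ρI_le (h : C.Dense) (i : ℕ) : C.nd i (C.ρ i • I) ≤ C.r i :=
  C.nd_ρ_le (C.I_mem h.base i)

/-- A disc close to `ξ`. -/
theorem Dense.lim_aux (h : C.Dense) {ξ : ℝ}
    (H : ∀ ε : ℝ, 0 < ε → ∃ i, C.r i < ε ∧ |ξ - C.c i| < ε) : C.Lim ξ := by
  intro ε hε
  obtain ⟨i, h1, h2⟩ := H (ε / 2) (by linarith)
  refine ⟨[i], ?_⟩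
  rw [word_cons, word_nil, mul_one]
  have h3 := h.nd_ρI_le i
  have h4 : ((C.ρ i • I : ℍ) : ℂ) - ξ = (((C.ρ i • I : ℍ) : ℂ) - C.c i) - ((ξ - C.c i : ℝ) : ℂ) := by
    push_cast; ring
  rw [h4]
  refine (norm_sub_le _ _).trans_lt ?_
  rw [Complex.norm_real, Real.norm_eq_abs]
  unfold nd at h3
  linarith

theorem Dense.lim_of_forall (h : C.Dense) {ξ : ℝ} (hξ : ∀ i, C.r i ≤ |ξ - C.c i|) :
    C.Lim ξ := by
  apply h.lim_aux
  intro ε hε
  set F := {i | ε / 4 ≤ C.r i} with hF
  have hfin : F.Finite := h.small (ε / 4) (by linarith)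
  -- a one-sided neighbourhood of `ξ` avoiding the big discs
  have hside : (∀ i ∈ F, ξ ≠ C.c i - C.r i) ∨ (∀ i ∈ F, ξ ≠ C.c i + C.r i) := by
    by_contra hc
    push Not at hc
    obtain ⟨⟨i, _, hi⟩, ⟨j, _, hj⟩⟩ := hc
    have hri := C.pos i
    have hrj := C.pos j
    have hij : i ≠ j := by
      rintro rfl
      linarith
    have h1 := C.sep hij
    have h2 : C.c i - C.c j = C.r i + C.r j := by linarith
    rw [h2, abs_of_pos (by linarith)] at h1
    exact lt_irrefl _ h1
  obtain ⟨x, y, hxy, hx1, hy1, hav⟩ : ∃ x y : ℝ, x < y ∧ ξ - ε / 4 < x ∧ y < ξ + ε / 4 ∧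
      ∀ i ∈ F, ∀ e, x < e → e < y → C.r i < |e - C.c i| := by
    rcases hside with hs | hs
    · have h1 : ∀ i ∈ F, ∀ᶠ y in 𝓝[>] ξ, ∀ e, ξ < e → e < y → C.r i < |e - C.c i| := by
        intro i hi
        have h2 := hξ i
        have h3 := hs i hi
        rcases le_abs.mp h2 with h4 | h4
        · refine Eventually.of_forall fun y e he _ => ?_
          rw [abs_of_pos (by linarith [C.pos i])]
          linarith
        · have h5 : ξ < C.c i - C.r i := lt_of_le_of_ne (by linarith) h3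
          filter_upwards [Ioo_mem_nhdsGT h5] with y hy e he1 he2
          have := hy.2
          rw [abs_of_neg (by linarith [C.pos i])]
          linarith
      have h2 := (Filter.eventually_all_finite hfin).mpr h1
      obtain ⟨y, hy1, hy2⟩ := (h2.and (Ioo_mem_nhdsGT (show ξ < ξ + ε / 4 by linarith))).exists
      exact ⟨ξ, y, hy2.1, by linarith, hy2.2, hy1⟩
    · have h1 : ∀ i ∈ F, ∀ᶠ x in 𝓝[<] ξ, ∀ e, x < e → e < ξ → C.r i < |e - C.c i| := by
        intro i hi
        have h2 := hξ i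
        have h3 := hs i hi
        rcases le_abs.mp h2 with h4 | h4
        · have h5 : C.c i + C.r i < ξ := lt_of_le_of_ne (by linarith) h3.symm
          filter_upwards [Ioo_mem_nhdsLT h5] with x hx e he1 he2
          have := hx.1
          rw [abs_of_pos (by linarith [C.pos i])]
          linarith
        · refine Eventually.of_forall fun x e _ he => ?_
          rw [abs_of_neg (by linarith [C.pos i])]
          linarith
      have h2 := (Filter.eventually_all_finite hfin).mpr h1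
      obtain ⟨x, hx1, hx2⟩ := (h2.and (Ioo_mem_nhdsLT (show ξ - ε / 4 < ξ by linarith))).exists
      exact ⟨x, ξ, hx2.2, hx2.1, by linarith, hx1⟩
  obtain ⟨i, e, he1, he2, he3⟩ := h.dense x y hxy
  have hi : i ∉ F := fun hi => absurd he3 (not_le.mpr (hav i hi e he1 he2))
  simp only [hF, Set.mem_ofPred_eq, not_le] at hi
  refine ⟨i, by linarith, ?_⟩
  have h5 : |ξ - C.c i| ≤ |ξ - e| + |e - C.c i| := abs_sub_le _ _ _
  have h6 : |ξ - e| < ε / 4 := by
    rw [abs_lt]; constructor <;> linarith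
  linarith

/-- The reflection on the real line. -/
noncomputable def R (C : Cfg) (i : ℕ) (ξ : ℝ) : ℝ := C.c i + C.r i ^ 2 / (ξ - C.c i)

theorem lim_R {i : ℕ} {ξ : ℝ} (hξ : ξ ≠ C.c i) (h : C.Lim ξ) : C.Lim (C.R i ξ) := by
  intro ε hε
  have hc : ContinuousAt (fun z : ℂ => (C.c i : ℂ) + (C.r i : ℂ) ^ 2 / (conj z - C.c i)) (ξ : ℂ) := by
    refine ContinuousAt.add continuousAt_const (ContinuousAt.div continuousAt_const
      ((Complex.continuous_conj.continuousAt).sub continuousAt_const) ?_)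
    rw [Complex.conj_ofReal, sub_ne_zero]
    exact_mod_cast hξ
  rw [Metric.continuousAt_iff] at hc
  obtain ⟨δ, hδ, H⟩ := hc ε hε
  obtain ⟨l, hl⟩ := h δ hδ
  refine ⟨i :: l, ?_⟩
  have h1 := H (x := ((C.word l • I : ℍ) : ℂ)) (by rw [dist_eq_norm]; exact hl)
  rw [dist_eq_norm] at h1
  rw [word_cons_smul, ρ, coe_refl_smul]
  have e1 : (C.c i : ℂ) + (C.r i : ℂ) ^ 2 / (conj (ξ : ℂ) - C.c i) = ((C.R i ξ : ℝ) : ℂ) := by
    rw [Complex.conj_ofReal, R]
    push_cast
    rfl
  rw [e1] at h1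
  exact h1

theorem Dense.unbounded (h : C.Dense) (M : ℝ) : ∃ i, M < C.nd i I ∧ ∀ z : ℍ, C.nd i z ≤ C.r i →
    M < ‖(z : ℂ)‖ := by
  obtain ⟨i, e, he1, he2, he3⟩ := h.dense (2 * |M| + 2) (2 * |M| + 3) (by linarith)
  have hb := h.base i
  have hM := le_abs_self M
  have hM0 := abs_nonneg M
  have h1 : |C.c i| ≥ 4 / 5 * e := by
    have : e ≤ |e - C.c i| + |C.c i| := by
      have := abs_add_le (e - C.c i) (C.c i)
      rw [sub_add_cancel] at this
      exact (le_abs_self e).trans this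
    linarith
  refine ⟨i, ?_, fun z hz => ?_⟩
  · have := C.abs_c_le_nd_I i
    linarith
  · have h2 : |C.c i| ≤ ‖(z : ℂ)‖ + C.nd i z := by
      have h3 : ((C.c i : ℝ) : ℂ) = (z : ℂ) - ((z : ℂ) - C.c i) := by ring
      rw [← Real.norm_eq_abs, ← Complex.norm_real, h3]
      exact norm_sub_le _ _
    linarith

theorem Dense.lim_center (h : C.Dense) (i : ℕ) : C.Lim (C.c i) := by
  intro ε hε
  have hr := C.pos i
  obtain ⟨j, _, hj2⟩ := h.unbounded (|C.c i| + C.r i ^ 2 / ε)
  have h1 := hj2 _ (h.nd_ρI_le j)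
  refine ⟨[i, j], ?_⟩
  rw [word_cons, word_cons, word_nil, mul_one, mul_smul]
  have h2 := C.nd_ρ i (C.ρ j • I)
  have h3 : ‖((C.ρ j • I : ℍ) : ℂ)‖ ≤ C.nd i (C.ρ j • I) + |C.c i| := by
    have h4 : ((C.ρ j • I : ℍ) : ℂ) = (((C.ρ j • I : ℍ) : ℂ) - C.c i) + ((C.c i : ℝ) : ℂ) := by ring
    have h5 := norm_add_le (((C.ρ j • I : ℍ) : ℂ) - C.c i) ((C.c i : ℝ) : ℂ)
    rw [← h4, Complex.norm_real, Real.norm_eq_abs] at h5
    exact h5
  have h6 : C.r i ^ 2 / ε < C.nd i (C.ρ j • I) := by linarith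
  have h7 := C.nd_pos i (C.ρ i • (C.ρ j • I))
  show C.nd i (C.ρ i • (C.ρ j • I)) < ε
  rw [div_lt_iff₀ hε] at h6
  by_contra hc
  push Not at hc
  have h8 := C.nd_pos i (C.ρ j • I)
  nlinarith

theorem lim_isClosed_aux {ξ : ℝ} (h : ¬ C.Lim ξ) : ∃ ε : ℝ, 0 < ε ∧ ∀ η, |η - ξ| ≤ ε → ¬ C.Lim η := by
  unfold Lim at h
  push Not at h
  obtain ⟨ε, hε, H⟩ := h
  refine ⟨ε / 2, by linarith, fun η hη hl => ?_⟩
  obtain ⟨l, hl⟩ := hl (ε / 2) (by linarith)
  have h1 := H l
  have h2 : ((C.word l • I : ℍ) : ℂ) - ξ = (((C.word l • I : ℍ) : ℂ) - η) + ((η - ξ : ℝ) : ℂ) := by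
    push_cast; ring
  rw [h2] at h1
  have h3 := norm_add_le (((C.word l • I : ℍ) : ℂ) - η) ((η - ξ : ℝ) : ℂ)
  rw [Complex.norm_real, Real.norm_eq_abs] at h3
  linarith

theorem lim_endpoint (h : C.Dense) (i : ℕ) : C.Lim (C.c i + C.r i) := by
  apply h.lim_of_forall
  intro k
  have hr := C.pos i
  by_cases hk : k = i
  · subst hk
    rw [add_sub_cancel_left, abs_of_pos hr]
  · have h1 := C.sep hk
    rw [abs_sub_comm] at h1
    have h2 : |C.c i - C.c k| ≤ |C.c i + C.r i - C.c k| + |C.r i| := by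
      have := abs_sub (C.c i + C.r i - C.c k) (C.r i)
      have h3 : C.c i + C.r i - C.c k - C.r i = C.c i - C.c k := by ring
      rw [h3] at this
      exact this
    rw [abs_of_pos hr] at h2
    linarith

/-- An interval without limit points lies in one disc. -/
theorem exists_disc (h : C.Dense) {x y : ℝ} (hxy : x < y) (hU : ∀ ξ, x ≤ ξ → ξ ≤ y → ¬ C.Lim ξ) :
    ∃ i, |x - C.c i| < C.r i ∧ |y - C.c i| < C.r i := by
  have h1 : ∃ i, |x - C.c i| < C.r i := by
    by_contra hc
    push Not at hc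
    exact hU x le_rfl hxy.le (h.lim_of_forall hc)
  obtain ⟨i, hi⟩ := h1
  refine ⟨i, hi, ?_⟩
  by_contra hc
  push Not at hc
  have hr := C.pos i
  rw [abs_lt] at hi
  rcases le_abs.mp hc with h2 | h2
  · exact hU (C.c i + C.r i) (by linarith) (by linarith) (lim_endpoint h i)
  · linarith

theorem expand (h : C.Dense) (n : ℕ) : ∀ (i : ℕ) (x y : ℝ), x < y →
    (∀ ξ, x ≤ ξ → ξ ≤ y → ¬ C.Lim ξ) → |x - C.c i| < C.r i → |y - C.c i| < C.r i →
    (y - x) * 4 ^ n < 2 * C.r i := by
  induction n with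
  | zero =>
    intro i x y _ _ hx hy
    rw [abs_lt] at hx hy
    simp
    linarith
  | succ n ih =>
    intro i x y hxy hU hx hy
    have hr := C.pos i
    -- the centre is not in the interval
    have hside : C.c i < x ∨ y < C.c i := by
      by_contra hc
      push Not at hc
      exact hU _ hc.1 hc.2 (h.lim_center i)
    set a := x - C.c i with ha
    set b := y - C.c i with hb
    have hab : 0 < a * b := by
      rcases hside with hs | hs
      · exact mul_pos (by linarith) (by linarith)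
      · exact mul_pos_of_neg_of_neg (by linarith) (by linarith)
    have ha0 : a ≠ 0 := left_ne_zero_of_mul hab.ne'
    have hb0 : b ≠ 0 := right_ne_zero_of_mul hab.ne'
    have hdiff : C.R i x - C.R i y = C.r i ^ 2 * (y - x) / (a * b) := by
      unfold R
      rw [← ha, ← hb]
      have : y - x = b - a := by rw [ha, hb]; ring
      rw [this]
      field_simp
      ring
    have hlt : C.R i y < C.R i x := by
      have : 0 < C.R i x - C.R i y := by
        rw [hdiff]
        have : 0 < y - x := by linarith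
        positivity
      linarith
    have hinv : ∀ ξ, C.R i y ≤ ξ → ξ ≤ C.R i x → ξ ≠ C.c i ∧ x ≤ C.R i ξ ∧ C.R i ξ ≤ y := by
      intro ξ h1 h2
      unfold R at h1 h2 ⊢
      rw [← hb] at h1
      rw [← ha] at h2
      have hxa : x = C.c i + a := by rw [ha]; ring
      have hyb : y = C.c i + b := by rw [hb]; ring
      have hr2 : 0 < C.r i ^ 2 := by positivity
      rcases hside with hs | hs
      · have ha1 : 0 < a := by linarith
        have hb1 : 0 < b := by linarith
        have h3 : 0 < C.r i ^ 2 / b := by positivity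
        have h4 : 0 < ξ - C.c i := by linarith
        refine ⟨(sub_pos.mp h4).ne', ?_, ?_⟩
        · rw [hxa]
          have : a ≤ C.r i ^ 2 / (ξ - C.c i) := by
            rw [le_div_iff₀ h4]
            have h5 : ξ - C.c i ≤ C.r i ^ 2 / a := by linarith
            rw [le_div_iff₀ ha1] at h5
            linarith
          linarith
        · have : C.r i ^ 2 / (ξ - C.c i) ≤ b := by
            rw [div_le_iff₀ h4]
            have h5 : C.r i ^ 2 / b ≤ ξ - C.c i := by linarith
            rw [div_le_iff₀ hb1] at h5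
            linarith
          linarith
      · have ha1 : a < 0 := by linarith
        have hb1 : b < 0 := by linarith
        have h3 : C.r i ^ 2 / a < 0 := div_neg_of_pos_of_neg hr2 ha1
        have h4 : ξ - C.c i < 0 := by linarith
        refine ⟨(sub_neg.mp h4).ne, ?_, ?_⟩
        · rw [hxa]
          have : a ≤ C.r i ^ 2 / (ξ - C.c i) := by
            rw [le_div_iff_of_neg h4]
            have h5 : ξ - C.c i ≤ C.r i ^ 2 / a := by linarith
            rw [le_div_iff_of_neg ha1] at h5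
            linarith
          linarith
        · have : C.r i ^ 2 / (ξ - C.c i) ≤ b := by
            rw [div_le_iff_of_neg h4]
            have h5 : C.r i ^ 2 / b ≤ ξ - C.c i := by linarith
            rw [div_le_iff_of_neg hb1] at h5
            linarith
          linarith
    have hinvo : ∀ ξ, ξ ≠ C.c i → C.R i (C.R i ξ) = ξ := by
      intro ξ hξ
      unfold R
      have : ξ - C.c i ≠ 0 := sub_ne_zero.mpr hξ
      rw [add_sub_cancel_left]
      field_simp
      ring
    have hU' : ∀ ξ, C.R i y ≤ ξ → ξ ≤ C.R i x → ¬ C.Lim ξ := by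
      intro ξ h1 h2 hl
      obtain ⟨h3, h4, h5⟩ := hinv ξ h1 h2
      exact hU _ h4 h5 (lim_R h3 hl)
    obtain ⟨j, hj1, hj2⟩ := exists_disc h hlt hU'
    have habs : ∀ t, |t| < C.r i → t ≠ 0 → C.r i < |C.r i ^ 2 / t| := by
      intro t ht ht0
      rw [abs_div, abs_of_pos (by positivity : 0 < C.r i ^ 2), lt_div_iff₀ (abs_pos.mpr ht0)]
      nlinarith [abs_pos.mpr ht0]
    have hRx : C.R i x - C.c i = C.r i ^ 2 / a := by unfold R; rw [← ha]; ring
    have hRy : C.R i y - C.c i = C.r i ^ 2 / b := by unfold R; rw [← hb]; ring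
    have hij : i ≠ j := by
      rintro rfl
      rw [hRx] at hj2
      exact absurd hj2 (not_lt.mpr (habs a hx ha0).le)
    have hrj := C.pos j
    have h4 := ih j (C.R i y) (C.R i x) hlt hU' hj1 hj2
    have h5 := C.gap4 i j hij
    have h6 := C.gap i j hij
    have hfar : ∀ t, |t - C.c j| < C.r j → |C.c i - C.c j| - C.r j ≤ |t - C.c i| := by
      intro t ht
      have := abs_sub_le (C.c i) t (C.c j)
      rw [abs_sub_comm (C.c i) t] at this
      linarith
    have h7 := hfar _ hj1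
    have h8 := hfar _ hj2
    rw [hRy] at h7
    rw [hRx] at h8
    rw [hdiff] at h4
    have h9 : 4 * (C.r i * C.r j) ≤ C.r i ^ 4 / (a * b) := by
      calc 4 * (C.r i * C.r j) ≤ (|C.c i - C.c j| - C.r j) ^ 2 := h5
        _ = (|C.c i - C.c j| - C.r j) * (|C.c i - C.c j| - C.r j) := by ring
        _ ≤ |C.r i ^ 2 / b| * |C.r i ^ 2 / a| :=
          mul_le_mul h7 h8 (by linarith) (abs_nonneg _)
        _ = C.r i ^ 4 / (a * b) := by
          rw [← abs_mul]
          have : C.r i ^ 2 / b * (C.r i ^ 2 / a) = C.r i ^ 4 / (a * b) := by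
            field_simp
          rw [this, abs_of_pos (by positivity)]
    have h10 : 4 * C.r j ≤ C.r i ^ 3 / (a * b) := by
      have : C.r i ^ 4 / (a * b) = C.r i * (C.r i ^ 3 / (a * b)) := by ring
      rw [this] at h9
      have : C.r i * (4 * C.r j) ≤ C.r i * (C.r i ^ 3 / (a * b)) := by linarith
      exact le_of_mul_le_mul_left this hr
    have hyx : 0 < y - x := by linarith
    have h4n : (0 : ℝ) < 4 ^ n := by positivity
    have h11 : C.r i ^ 2 * (y - x) / (a * b) * 4 ^ n * C.r i =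
        (C.r i ^ 3 / (a * b)) * ((y - x) * 4 ^ n) := by ring
    have h12 : 4 * C.r j * ((y - x) * 4 ^ n) ≤ (C.r i ^ 3 / (a * b)) * ((y - x) * 4 ^ n) :=
      mul_le_mul_of_nonneg_right h10 (by positivity)
    have h13 : C.r i ^ 2 * (y - x) / (a * b) * 4 ^ n * C.r i < 2 * C.r j * C.r i :=
      mul_lt_mul_of_pos_right h4 hr
    rw [h11] at h13
    have h14 : C.r j * ((y - x) * 4 ^ (n + 1)) < C.r j * (2 * C.r i) := by
      have : C.r j * ((y - x) * 4 ^ (n + 1)) = 4 * C.r j * ((y - x) * 4 ^ n) := by ring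
      linarith
    exact lt_of_mul_lt_mul_left h14 hrj.le

theorem Dense.lim (h : C.Dense) (ξ : ℝ) : C.Lim ξ := by
  by_contra hc
  obtain ⟨ε, hε, H⟩ := lim_isClosed_aux hc
  have hxy : ξ < ξ + ε := by linarith
  have hU : ∀ η, ξ ≤ η → η ≤ ξ + ε → ¬ C.Lim η := fun η h1 h2 =>
    H η (by rw [abs_of_nonneg (by linarith)]; linarith)
  obtain ⟨i, hi1, hi2⟩ := exists_disc h hxy hU
  obtain ⟨n, hn⟩ := pow_unbounded_of_one_lt (2 * C.r i / ε) (show (1 : ℝ) < 4 by norm_num)
  have h1 := expand h n i ξ (ξ + ε) hxy hU hi1 hi2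
  rw [div_lt_iff₀ hε] at hn
  rw [add_sub_cancel_left] at h1
  linarith

theorem dist_word (l : List ℕ) (z w : ℍ) : dist (C.word l • z) (C.word l • w) = dist z w := by
  induction l with
  | nil => simp
  | cons i l ih => rw [word_cons_smul, word_cons_smul, ρ, dist_refl, ih]

theorem Dense.orbit (h : C.Dense) (ξ : ℝ) {ε : ℝ} (hε : 0 < ε) :
    ∃ γ : C.grp, ‖(mob γ I : ℂ) - ξ‖ < ε := by
  set T := dist (C.ρ 0 • I) I with hT
  obtain ⟨l, hl⟩ := h.lim ξ (ε * Real.exp (-T)) (by positivity)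
  by_cases he : Even l.length
  · obtain ⟨g, hg⟩ := C.exists_psl he
    refine ⟨⟨g, l, he, hg⟩, ?_⟩
    show ‖(mob g I : ℂ) - ξ‖ < ε
    rw [hg]
    refine hl.trans_le ?_
    have : Real.exp (-T) ≤ 1 := Real.exp_le_one_iff.mpr (by linarith [dist_nonneg (x := C.ρ 0 • I) (y := I)])
    nlinarith
  · have he' : Even (l ++ [0]).length := by
      rw [List.length_append, List.length_singleton, Nat.even_add_one]
      exact he
    obtain ⟨g, hg⟩ := C.exists_psl he'
    refine ⟨⟨g, _, he', hg⟩, ?_⟩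
    show ‖(mob g I : ℂ) - ξ‖ < ε
    rw [hg, word_append, mul_smul, word_cons, word_nil, mul_one]
    have h1 := UpperHalfPlane.dist_coe_le (C.word l • (C.ρ 0 • I)) (C.word l • I)
    rw [dist_word, ← hT, dist_eq_norm] at h1
    have h2 : (C.word l • I).im ≤ ‖((C.word l • I : ℍ) : ℂ) - ξ‖ := by
      have h := Complex.abs_im_le_norm (((C.word l • I : ℍ) : ℂ) - ξ)
      have h2 : (((C.word l • I : ℍ) : ℂ) - ξ).im = (C.word l • I).im := by simp
      rw [h2, abs_of_pos (C.word l • I).im_pos] at h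
      exact h
    have h3 : ((C.word l • (C.ρ 0 • I) : ℍ) : ℂ) - ξ = (((C.word l • (C.ρ 0 • I) : ℍ) : ℂ) -
      ((C.word l • I : ℍ) : ℂ)) + (((C.word l • I : ℍ) : ℂ) - ξ) := by ring
    rw [h3]
    refine (norm_add_le _ _).trans_lt ?_
    have h4 : 0 ≤ Real.exp T - 1 := by
      have := Real.one_le_exp (show 0 ≤ T from dist_nonneg)
      linarith
    have h5 : (C.word l • I).im * (Real.exp T - 1) ≤ ‖((C.word l • I : ℍ) : ℂ) - ξ‖ *
      (Real.exp T - 1) := mul_le_mul_of_nonneg_right h2 h4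
    have h6 : ‖((C.word l • I : ℍ) : ℂ) - ξ‖ * Real.exp T < ε := by
      have := mul_lt_mul_of_pos_right hl (Real.exp_pos T)
      rwa [mul_assoc, ← Real.exp_add, neg_add_cancel, Real.exp_zero, mul_one] at this
    linarith

theorem Dense.limitSet (h : C.Dense) : limitSet C.grp = Set.univ := by
  rw [Set.eq_univ_iff_forall]
  have hreal : ∀ x : ℝ, ((x : ℂ) : OnePoint ℂ) ∈
      closure (Set.range fun γ : C.grp => ((mob γ I : ℂ) : OnePoint ℂ)) := by
    intro x
    have h1 : (x : ℂ) ∈ closure (Set.range fun γ : C.grp => (mob γ I : ℂ)) := by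
      rw [Metric.mem_closure_iff]
      intro ε hε
      obtain ⟨γ, hγ⟩ := h.orbit x hε
      exact ⟨_, ⟨γ, rfl⟩, by rw [dist_comm, dist_eq_norm]; exact hγ⟩
    have h2 := image_closure_subset_closure_image (OnePoint.continuous_coe (X := ℂ))
      (Set.mem_image_of_mem _ h1)
    rw [← Set.range_comp] at h2
    exact h2
  intro ξ
  show ξ.map Complex.ofReal ∈ closure _
  induction ξ using OnePoint.rec with
  | infty =>
    rw [OnePoint.map_infty]
    have h1 : Tendsto (fun n : ℕ => (((n : ℝ) : ℂ) : OnePoint ℂ)) atTop (𝓝 OnePoint.infty) := by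
      refine OnePoint.tendsto_coe_infty.comp ?_
      rw [Filter.coclosedCompact_eq_cocompact]
      refine tendsto_cocompact_of_tendsto_dist_comp_atTop 0 ?_
      simp only [dist_zero_right, Complex.norm_real, Real.norm_eq_abs, Nat.abs_cast]
      exact tendsto_natCast_atTop_atTop
    exact isClosed_closure.mem_of_tendsto h1 (Eventually.of_forall fun n => hreal n)
  | coe x => exact hreal x

end Cfg

end Pool.Agent.H711R3
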