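import Pool.Agent.H711R3.Limit

set_option autoImplicit false

open UpperHalfPlane Filter
open scoped MatrixGroups Topology ComplexConjugate ENNReal

namespace Pool.Agent.H711R3

/-- The exponent of the stretch at `z`. -/
noncomputable def ex (L : ℝ) (z : ℍ) : ℝ := L * Real.smoothTransition (z.re / z.im)

/-- The twist-like map `z ↦ exp (L φ(x/y)) z`. -/
noncomputable def stretch (L : ℝ) (z : ℍ) : ℍ :=
  ⟨(Real.exp (ex L z) : ℝ) * (z : ℂ), by
    rw [Complex.im_ofReal_mul]
    exact mul_pos (Real.exp_pos _) z.im_pos⟩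

theorem coe_stretch (L : ℝ) (z : ℍ) :
    ((stretch L z : ℍ) : ℂ) = (Real.exp (ex L z) : ℝ) * (z : ℂ) := rfl

theorem stretch_re (L : ℝ) (z : ℍ) : (stretch L z).re = Real.exp (ex L z) * z.re := by
  show (((Real.exp (ex L z) : ℝ) : ℂ) * (z : ℂ)).re = _
  rw [Complex.re_ofReal_mul]; rfl

theorem stretch_im (L : ℝ) (z : ℍ) : (stretch L z).im = Real.exp (ex L z) * z.im := by
  show (((Real.exp (ex L z) : ℝ) : ℂ) * (z : ℂ)).im = _
  rw [Complex.im_ofReal_mul]; rfl

theorem stretch_ratio (L : ℝ) (z : ℍ) :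
    (stretch L z).re / (stretch L z).im = z.re / z.im := by
  rw [stretch_re, stretch_im, mul_div_mul_left _ _ (Real.exp_pos _).ne']

theorem ex_stretch (L M : ℝ) (z : ℍ) : ex M (stretch L z) = ex M z := by
  unfold ex
  rw [stretch_ratio]

theorem stretch_neg_stretch (L : ℝ) (z : ℍ) : stretch (-L) (stretch L z) = z := by
  apply UpperHalfPlane.ext
  rw [coe_stretch, ex_stretch, coe_stretch]
  have : ex (-L) z = - ex L z := by unfold ex; ring
  rw [this, ← mul_assoc, ← Complex.ofReal_mul, ← Real.exp_add, neg_add_cancel, Real.exp_zero]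
  simp

theorem stretch_stretch_neg (L : ℝ) (z : ℍ) : stretch L (stretch (-L) z) = z := by
  have := stretch_neg_stretch (-L) z
  rwa [neg_neg] at this

/-- The factor by which the stretch acts near a disc centred at `c`. -/
noncomputable def lam (L c : ℝ) : ℝ := if 0 < c then Real.exp L else 1

theorem lam_pos (L c : ℝ) : 0 < lam L c := by
  unfold lam; split_ifs <;> positivity

theorem lam_neg_mul (L c : ℝ) : lam (-L) c * lam L c = 1 := by
  unfold lam
  split_ifs
  · rw [← Real.exp_add, neg_add_cancel, Real.exp_zero]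
  · norm_num

theorem lam_mul_self (L M c : ℝ) : lam M (lam L c * c) = lam M c := by
  unfold lam
  by_cases h : 0 < c
  · rw [if_pos h, if_pos h, if_pos (mul_pos (Real.exp_pos _) h)]
  · rw [if_neg h, one_mul, if_neg h]

theorem continuous_stretch (L : ℝ) : Continuous (stretch L) := by
  rw [UpperHalfPlane.isEmbedding_coe.continuous_iff]
  show Continuous fun z : ℍ => ((Real.exp (ex L z) : ℝ) : ℂ) * (z : ℂ)
  have h1 : Continuous fun z : ℍ => ex L z := by
    unfold ex
    exact continuous_const.mul (Real.smoothTransition.continuous.comp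
      (UpperHalfPlane.continuous_re.div₀ UpperHalfPlane.continuous_im (fun z => z.im_ne_zero)))
  exact (Complex.continuous_ofReal.comp (Real.continuous_exp.comp h1)).mul
    UpperHalfPlane.continuous_coe

namespace Cfg

variable {C C' : Cfg}

/-- Near the disc `i`, the stretch is the multiplication by `lam`. -/
theorem stretch_eq {L : ℝ} {i : ℕ} (hb : 4 * C.r i ≤ |C.c i|) {z : ℍ}
    (hz : C.nd i z ≤ 2 * C.r i) : ((stretch L z : ℍ) : ℂ) = (lam L (C.c i) : ℝ) * (z : ℂ) := by
  rw [coe_stretch]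
  congr 2
  have hr := C.pos i
  have h1 := Complex.abs_re_le_norm ((z : ℂ) - C.c i)
  have h2 : ((z : ℂ) - C.c i).re = z.re - C.c i := by simp
  rw [h2] at h1
  have h3 := C.im_le_nd i z
  have hz0 := z.im_pos
  unfold nd at hz h3
  rw [abs_le] at h1
  unfold ex lam
  split_ifs with hc
  · rw [abs_of_pos hc] at hb
    rw [Real.smoothTransition.one_of_one_le, mul_one]
    rw [le_div_iff₀ hz0]
    linarith
  · have hc' : C.c i < 0 := by
      rcases lt_or_eq_of_le (not_lt.mp hc) with h | h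
      · exact h
      · rw [h, abs_zero] at hb
        linarith
    rw [abs_of_neg hc'] at hb
    rw [Real.smoothTransition.zero_of_nonpos, mul_zero, Real.exp_zero]
    exact div_nonpos_of_nonpos_of_nonneg (by linarith) hz0.le

/-- `C'` is obtained from `C` by scaling the discs on the right by `exp L`. -/
structure Rel (L : ℝ) (C C' : Cfg) : Prop where
  base : ∀ i, 4 * C.r i ≤ |C.c i|
  c_eq : ∀ i, C'.c i = lam L (C.c i) * C.c i
  r_eq : ∀ i, C'.r i = lam L (C.c i) * C.r i

variable {L : ℝ}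

theorem Rel.symm (h : Rel L C C') : Rel (-L) C' C where
  base i := by
    rw [h.c_eq, h.r_eq, abs_mul, abs_of_pos (lam_pos _ _)]
    have := mul_le_mul_of_nonneg_left (h.base i) (lam_pos L (C.c i)).le
    linarith
  c_eq i := by rw [h.c_eq, lam_mul_self, ← mul_assoc, lam_neg_mul, one_mul]
  r_eq i := by rw [h.c_eq, h.r_eq, lam_mul_self, ← mul_assoc, lam_neg_mul, one_mul]

theorem Rel.nd_stretch (h : Rel L C C') {i : ℕ} {z : ℍ} (hz : C.nd i z ≤ 2 * C.r i) :
    C'.nd i (stretch L z) = lam L (C.c i) * C.nd i z := by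
  unfold nd
  rw [stretch_eq (h.base i) hz, h.c_eq]
  have : ((lam L (C.c i) : ℝ) : ℂ) * (z : ℂ) - ((lam L (C.c i) * C.c i : ℝ) : ℂ) =
    ((lam L (C.c i) : ℝ) : ℂ) * ((z : ℂ) - C.c i) := by push_cast; ring
  rw [this, norm_mul, Complex.norm_real, Real.norm_eq_abs, abs_of_pos (lam_pos _ _)]

theorem Rel.sideMap (h : Rel L C C') : SideMap C C' (stretch L) where
  maps p hp i := by
    by_contra hc
    push Not at hc
    have h1 := h.symm.nd_stretch (i := i) (z := stretch L p) (by linarith [C'.pos i])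
    rw [stretch_neg_stretch] at h1
    have h2 := hp i
    rw [h1, h.symm.r_eq i] at h2
    exact absurd (le_of_mul_le_mul_left h2 (lam_pos _ _)) (not_le.mpr hc)
  side p _ i hi := by
    rw [h.nd_stretch (by linarith [C.pos i]), hi, h.r_eq]

theorem Rel.stretch_ρ (h : Rel L C C') {i : ℕ} {z : ℍ} (hz : C.nd i z ≤ 2 * C.r i)
    (hz' : C.nd i (C.ρ i • z) ≤ 2 * C.r i) :
    stretch L (C.ρ i • z) = C'.ρ i • stretch L z := by
  apply UpperHalfPlane.ext
  rw [stretch_eq (h.base i) hz', ρ, coe_refl_smul, ρ, coe_refl_smul, stretch_eq (h.base i) hz,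
    h.c_eq, h.r_eq]
  have hl : ((lam L (C.c i) : ℝ) : ℂ) ≠ 0 := by exact_mod_cast (lam_pos _ _).ne'
  rw [map_mul, Complex.conj_ofReal]
  have h1 := conj_sub_ne (C.c i) z
  push_cast
  have h2 : (lam L (C.c i) : ℂ) * conj (z : ℂ) - lam L (C.c i) * C.c i =
    lam L (C.c i) * (conj (z : ℂ) - C.c i) := by ring
  rw [h2]
  field_simp

theorem continuous_nd (i : ℕ) : Continuous (C.nd i) :=
  (UpperHalfPlane.continuous_coe.sub continuous_const).norm

/-- Local finiteness of the discs. -/
theorem eventually_nd (hs : ∀ ε : ℝ, 0 < ε → {i | ε ≤ C.r i}.Finite) (p : ℍ) :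
    ∀ᶠ z in 𝓝 p, ∀ i, C.r i < C.nd i p → C.r i < C.nd i z := by
  have hfin := hs (p.im / 2) (by linarith [p.im_pos])
  have h1 : ∀ i ∈ {i | p.im / 2 ≤ C.r i}, ∀ᶠ z in 𝓝 p, C.r i < C.nd i p → C.r i < C.nd i z := by
    intro i _
    by_cases h : C.r i < C.nd i p
    · filter_upwards [(C.continuous_nd i).continuousAt.eventually (lt_mem_nhds h)] with z hz _
      exact hz
    · exact Eventually.of_forall fun z hz => absurd hz h
  have h2 := (Filter.eventually_all_finite hfin).mpr h1
  have h3 : ∀ᶠ z : ℍ in 𝓝 p, p.im / 2 < z.im :=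
    UpperHalfPlane.continuous_im.continuousAt.eventually
      (lt_mem_nhds (by linarith [p.im_pos]))
  filter_upwards [h2, h3] with z hz2 hz3 i hi
  by_cases h : p.im / 2 ≤ C.r i
  · exact hz2 i h hi
  · push Not at h
    exact h.trans (hz3.trans_le (C.im_le_nd i z))

theorem Rel.near (h : Rel L C C') (hs : ∀ ε : ℝ, 0 < ε → {i | ε ≤ C.r i}.Finite) {p : ℍ}
    (hp : p ∈ C.P) : ext C C' (stretch L) =ᶠ[𝓝 p] stretch L := by
  have h1 := eventually_nd hs p
  have hfin : {i | C.nd i p = C.r i}.Finite := by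
    refine (hs p.im p.im_pos).subset fun i hi => ?_
    have := C.im_le_nd i p
    rw [Set.mem_ofPred_eq] at hi ⊢
    linarith
  have h2 : ∀ i ∈ {i | C.nd i p = C.r i}, ∀ᶠ z in 𝓝 p, C.nd i z ≤ 2 * C.r i ∧
      C.nd i (C.ρ i • z) ≤ 2 * C.r i ∧ ∀ j, C.r j < C.nd j p → C.r j < C.nd j (C.ρ i • z) := by
    intro i hi
    have hi' : C.nd i p = C.r i := hi
    have hr := C.pos i
    have hc : Tendsto (fun z : ℍ => C.ρ i • z) (𝓝 p) (𝓝 p) := by
      have h0 : ContinuousAt (fun z : ℍ => C.ρ i • z) p :=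
        (continuous_const_smul (C.ρ i)).continuousAt
      have h00 : C.ρ i • p = p := C.ρ_fixed hi'
      have h01 : Tendsto (fun z : ℍ => C.ρ i • z) (𝓝 p) (𝓝 (C.ρ i • p)) := h0
      rwa [h00] at h01
    have h3 : ∀ᶠ z in 𝓝 p, C.nd i z ≤ 2 * C.r i := by
      have := (C.continuous_nd i).continuousAt.eventually (gt_mem_nhds
        (show C.nd i p < 2 * C.r i by linarith))
      exact this.mono fun z hz => hz.le
    exact h3.and ((hc.eventually h3).and (hc.eventually h1))
  have h3 := (Filter.eventually_all_finite hfin).mpr h2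
  filter_upwards [h1, h3] with z hz1 hz3
  by_cases hz : z ∈ C.P
  · exact ext_of_mem h.sideMap hz
  · simp only [P, Set.mem_ofPred_eq, not_forall, not_le] at hz
    obtain ⟨i, hi⟩ := hz
    have hri := C.pos i
    have hip : C.nd i p = C.r i := by
      refine le_antisymm ?_ (hp i)
      by_contra hc
      push Not at hc
      exact absurd hi (not_lt.mpr (hz1 i hc).le)
    obtain ⟨h4, h5, h6⟩ := hz3 i hip
    have h7 : C.ρ i • z ∈ C.P := by
      intro j
      by_cases hj : j = i
      · subst hj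
        exact (C.lt_nd_ρ hi).le
      · exact (h6 j (C.lt_nd_of_le hj hip.le)).le
    have h8 := ext_ρ h.sideMap i (C.ρ i • z)
    rw [ρ_smul_smul, ext_of_mem h.sideMap h7] at h8
    rw [h8, ← h.stretch_ρ h5 (by rw [ρ_smul_smul]; exact h4), ρ_smul_smul]

theorem Rel.small (h : Rel L C C') (hs : ∀ ε : ℝ, 0 < ε → {i | ε ≤ C.r i}.Finite) :
    ∀ ε : ℝ, 0 < ε → {i | ε ≤ C'.r i}.Finite := by
  intro ε hε
  refine (hs (ε / (Real.exp L + 1)) (by positivity)).subset fun i hi => ?_
  rw [Set.mem_ofPred_eq] at hi ⊢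
  rw [h.r_eq] at hi
  have hr := C.pos i
  have hl : lam L (C.c i) ≤ Real.exp L + 1 := by
    unfold lam
    split_ifs <;> linarith [Real.exp_pos L]
  rw [div_le_iff₀ (by positivity)]
  nlinarith

theorem Rel.continuous (h : Rel L C C') (hs : ∀ ε : ℝ, 0 < ε → {i | ε ≤ C.r i}.Finite) :
    Continuous (ext C C' (stretch L)) := by
  rw [continuous_iff_continuousAt]
  intro z
  obtain ⟨l, p, _, hp, rfl⟩ := C.exists_word z
  have h1 : ext C C' (stretch L) = fun z => C'.word l • ext C C' (stretch L) ((C.word l)⁻¹ • z) := by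
    funext z
    rw [← ext_word_smul h.sideMap, smul_inv_smul]
  rw [h1]
  have h2 : ContinuousAt (ext C C' (stretch L)) ((C.word l)⁻¹ • (C.word l • p)) := by
    rw [inv_smul_smul]
    exact (continuous_stretch L).continuousAt.congr (h.near hs hp).symm
  have h3 : ContinuousAt (fun z : ℍ => ext C C' (stretch L) ((C.word l)⁻¹ • z))
      (C.word l • p) :=
    ContinuousAt.comp (g := ext C C' (stretch L)) (f := fun z : ℍ => (C.word l)⁻¹ • z) h2
      (continuous_const_smul _).continuousAt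
  exact h3.const_smul (C'.word l)

/-- The equivariant homeomorphism. -/
noncomputable def Rel.homeo (h : Rel L C C') (hs : ∀ ε : ℝ, 0 < ε → {i | ε ≤ C.r i}.Finite) :
    ℍ ≃ₜ ℍ where
  toFun := ext C C' (stretch L)
  invFun := ext C' C (stretch (-L))
  left_inv z := ext_ext h.sideMap h.symm.sideMap (stretch_neg_stretch L) z
  right_inv z := ext_ext h.symm.sideMap h.sideMap (stretch_stretch_neg L) z
  continuous_toFun := h.continuous hs
  continuous_invFun := h.symm.continuous (h.small hs)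

theorem Rel.homeo_word (h : Rel L C C') (hs : ∀ ε : ℝ, 0 < ε → {i | ε ≤ C.r i}.Finite)
    (l : List ℕ) (z : ℍ) : h.homeo hs (C.word l • z) = C'.word l • h.homeo hs z :=
  ext_word_smul h.sideMap l z

theorem Rel.homeo_near (h : Rel L C C') (hs : ∀ ε : ℝ, 0 < ε → {i | ε ≤ C.r i}.Finite) {p : ℍ}
    (hp : p ∈ C.P) : (h.homeo hs : ℍ → ℍ) =ᶠ[𝓝 p] stretch L := h.near hs hp

end Cfg

end Pool.Agent.H711R3
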