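import Pool.Agent.H711R3.Map

set_option autoImplicit false

open UpperHalfPlane Filter
open scoped MatrixGroups Topology ComplexConjugate ENNReal

namespace Pool.Agent.H711R3

/-- Linear part of a real-linear map of the plane. -/
noncomputable def al (T : ℂ →L[ℝ] ℂ) : ℂ := (T 1 - Complex.I * T Complex.I) / 2

/-- Antilinear part of a real-linear map of the plane. -/
noncomputable def be (T : ℂ →L[ℝ] ℂ) : ℂ := (T 1 + Complex.I * T Complex.I) / 2

theorem apply_eq (T : ℂ →L[ℝ] ℂ) (u : ℂ) : T u = al T * u + be T * conj u := by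
  have h : T u = u.re * T 1 + u.im * T Complex.I := by
    conv_lhs => rw [show u = u.re • (1 : ℂ) + u.im • Complex.I by
      apply Complex.ext <;> simp]
    rw [map_add, map_smul, map_smul]
    simp
  rw [h, al, be]
  have h1 : u = u.re + u.im * Complex.I := (Complex.re_add_im u).symm
  have h2 : conj u = u.re - u.im * Complex.I := by
    apply Complex.ext <;> simp
  rw [h2]
  conv_rhs => rw [h1]
  have hI : Complex.I * Complex.I = -1 := Complex.I_mul_I
  simp only [Complex.add_re, Complex.ofReal_re, Complex.mul_re, Complex.I_re, mul_zero,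
    Complex.ofReal_im, Complex.I_im, mul_one, sub_self, add_zero, Complex.add_im, Complex.mul_im,
    zero_add]
  linear_combination ((u.im : ℂ) * T Complex.I) * hI

theorem al_comp {T T' : ℂ →L[ℝ] ℂ} {a a' : ℂ} (h : ∀ v, T' v = a' * conj (T (a * conj v))) :
    al T' = a' * conj (al T) * conj a ∧ be T' = a' * conj (be T) * a := by
  have h1 : ∀ v, T' v = a' * conj (al T) * conj a * v + a' * conj (be T) * a * conj v := by
    intro v
    rw [h, apply_eq T]
    simp only [map_add, map_mul, Complex.conj_conj]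
    ring
  have hI : Complex.I * Complex.I = -1 := Complex.I_mul_I
  have e1 := h1 1
  have e2 := h1 Complex.I
  simp only [map_one, Complex.conj_I] at e1 e2
  constructor
  · rw [al, e1, e2]
    linear_combination (-(a' * conj (al T) * conj a) / 2 + (a' * conj (be T) * a) / 2) * hI
  · rw [be, e1, e2]
    linear_combination ((a' * conj (al T) * conj a) / 2 - (a' * conj (be T) * a) / 2) * hI

/-- `F` is `C¹` at `z` with dilatation at most `k`. -/
def QCAt (k : ℝ) (F : ℂ → ℂ) (z : ℂ) : Prop :=
  ContDiffAt ℝ 1 F z ∧ ‖be (fderiv ℝ F z)‖ ≤ k * ‖al (fderiv ℝ F z)‖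

theorem QCAt.congr {k : ℝ} {F G : ℂ → ℂ} {z : ℂ} (h : QCAt k F z) (hFG : F =ᶠ[𝓝 z] G) :
    QCAt k G z := by
  refine ⟨h.1.congr_of_eventuallyEq hFG.symm, ?_⟩
  rw [← hFG.fderiv_eq]
  exact h.2

theorem dz_eq {F : ℂ → ℂ} {z : ℂ} (h : DifferentiableAt ℝ F z) : dz F z = al (fderiv ℝ F z) := by
  have h1 : HasDerivAt (fun t : ℝ => F (z + t)) (fderiv ℝ F z 1) 0 := by
    have hF : HasFDerivAt F (fderiv ℝ F z) (z + ((0 : ℝ) : ℂ)) := by
      simpa using h.hasFDerivAt
    have hg : HasDerivAt (fun t : ℝ => z + (t : ℂ)) 1 0 := by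
      simpa using (Complex.ofRealCLM.hasDerivAt (x := (0 : ℝ))).const_add z
    exact hF.comp_hasDerivAt (0 : ℝ) hg
  have h2 : HasDerivAt (fun t : ℝ => F (z + t * Complex.I)) (fderiv ℝ F z Complex.I) 0 := by
    have hF : HasFDerivAt F (fderiv ℝ F z) (z + ((0 : ℝ) : ℂ) * Complex.I) := by
      simpa using h.hasFDerivAt
    have hg : HasDerivAt (fun t : ℝ => z + (t : ℂ) * Complex.I) Complex.I 0 := by
      have := ((Complex.ofRealCLM.hasDerivAt (x := (0 : ℝ))).mul_const Complex.I).const_add z
      simpa using this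
    exact hF.comp_hasDerivAt (0 : ℝ) hg
  rw [dz, h1.deriv, h2.deriv, al]

theorem dzbar_eq {F : ℂ → ℂ} {z : ℂ} (h : DifferentiableAt ℝ F z) :
    dzbar F z = be (fderiv ℝ F z) := by
  have h1 : HasDerivAt (fun t : ℝ => F (z + t)) (fderiv ℝ F z 1) 0 := by
    have hF : HasFDerivAt F (fderiv ℝ F z) (z + ((0 : ℝ) : ℂ)) := by
      simpa using h.hasFDerivAt
    have hg : HasDerivAt (fun t : ℝ => z + (t : ℂ)) 1 0 := by
      simpa using (Complex.ofRealCLM.hasDerivAt (x := (0 : ℝ))).const_add z
    exact hF.comp_hasDerivAt (0 : ℝ) hg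
  have h2 : HasDerivAt (fun t : ℝ => F (z + t * Complex.I)) (fderiv ℝ F z Complex.I) 0 := by
    have hF : HasFDerivAt F (fderiv ℝ F z) (z + ((0 : ℝ) : ℂ) * Complex.I) := by
      simpa using h.hasFDerivAt
    have hg : HasDerivAt (fun t : ℝ => z + (t : ℂ) * Complex.I) Complex.I 0 := by
      have := ((Complex.ofRealCLM.hasDerivAt (x := (0 : ℝ))).mul_const Complex.I).const_add z
      simpa using this
    exact hF.comp_hasDerivAt (0 : ℝ) hg
  rw [dzbar, h1.deriv, h2.deriv, be]

/-- A homeomorphism which is `C¹` with bounded dilatation at every point is quasiconformal. -/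
theorem isQuasiconformal_of_forall {w : ℍ ≃ₜ ℍ} {k : ℝ} (hk0 : 0 ≤ k) (hk : k < 1)
    (h : ∀ z : ℍ, QCAt k (read w) z) : IsQuasiconformal w := by
  have h' : ∀ z : ℂ, 0 < z.im → QCAt k (read w) z := fun z hz => h ⟨z, hz⟩
  refine ⟨?_, k, hk0, hk, Filter.Eventually.of_forall fun z hz => ?_⟩
  · intro a b c d hab hc hcd
    constructor
    · refine Filter.Eventually.of_forall fun y hy => ?_
      apply ContDiffOn.absolutelyContinuousOnInterval
      intro x hx
      have h1 := (h' (x + y * Complex.I) (by simp; linarith [hy.1])).1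
      refine ContDiffAt.contDiffWithinAt ?_
      refine ContDiffAt.comp (g := read w) (f := fun x : ℝ => (x : ℂ) + y * Complex.I) x h1 ?_
      exact (Complex.ofRealCLM.contDiff.add contDiff_const).contDiffAt
    · refine Filter.Eventually.of_forall fun x hx => ?_
      apply ContDiffOn.absolutelyContinuousOnInterval
      intro y hy
      rw [Set.uIcc_of_le hcd.le] at hy
      have h1 := (h' (x + y * Complex.I) (by simp; linarith [hy.1])).1
      refine ContDiffAt.contDiffWithinAt ?_
      refine ContDiffAt.comp (g := read w) (f := fun y : ℝ => (x : ℂ) + y * Complex.I) y h1 ?_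
      exact (contDiff_const.add (Complex.ofRealCLM.contDiff.mul contDiff_const)).contDiffAt
  · have h1 := h' z hz
    have h2 : DifferentiableAt ℝ (read w) z := h1.1.differentiableAt one_ne_zero
    rw [dz_eq h2, dzbar_eq h2]
    exact h1.2

end Pool.Agent.H711R3
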