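import Mathlib

set_option autoImplicit false

open UpperHalfPlane
open scoped MatrixGroups Topology ComplexConjugate

namespace Pool.Agent.H711R3

/-- The reflection in the half circle of centre `c` and radius `r`, as a matrix of determinant
`-1`. -/
noncomputable def refl (c r : ℝ) (hr : 0 < r) : GL (Fin 2) ℝ :=
  Matrix.GeneralLinearGroup.mkOfDetNeZero !![c / r, (r ^ 2 - c ^ 2) / r; 1 / r, -c / r] (by
    rw [Matrix.det_fin_two_of]
    have : c / r * (-c / r) - (r ^ 2 - c ^ 2) / r * (1 / r) = -1 := by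
      field_simp; ring
    rw [this]; norm_num)

theorem det_refl (c r : ℝ) (hr : 0 < r) : (refl c r hr).det.val = -1 := by
  show Matrix.det !![c / r, (r ^ 2 - c ^ 2) / r; 1 / r, -c / r] = -1
  rw [Matrix.det_fin_two_of]
  field_simp; ring

theorem refl_mul_self (c r : ℝ) (hr : 0 < r) : refl c r hr * refl c r hr = 1 := by
  apply Units.ext
  show !![c / r, (r ^ 2 - c ^ 2) / r; 1 / r, -c / r] * !![c / r, (r ^ 2 - c ^ 2) / r; 1 / r, -c / r]
    = 1
  rw [Matrix.mul_fin_two, Matrix.one_fin_two]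
  congr 1
  ext i j
  fin_cases i <;> fin_cases j <;> simp <;> field_simp <;> ring

theorem refl_smul_smul (c r : ℝ) (hr : 0 < r) (z : ℍ) : refl c r hr • (refl c r hr • z) = z := by
  rw [← mul_smul, refl_mul_self, one_smul]

theorem sub_ne (c : ℝ) (z : ℍ) : (z : ℂ) - c ≠ 0 := by
  intro h
  have := congrArg Complex.im h
  simp at this
  exact absurd this z.im_ne_zero

theorem conj_sub_ne (c : ℝ) (z : ℍ) : conj (z : ℂ) - c ≠ 0 := by
  intro h
  have := congrArg Complex.im h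
  simp at this
  exact absurd this z.im_ne_zero

theorem coe_refl_smul (c r : ℝ) (hr : 0 < r) (z : ℍ) :
    ((refl c r hr • z : ℍ) : ℂ) = c + r ^ 2 / (conj (z : ℂ) - c) := by
  have h1 : ¬ (0 < (refl c r hr).det.val) := by rw [det_refl]; norm_num
  rw [coe_smul, σ, if_neg h1]
  have h2 : num (refl c r hr) z = (c / r : ℝ) * (z : ℂ) + ((r ^ 2 - c ^ 2) / r : ℝ) := rfl
  have h3 : denom (refl c r hr) z = (1 / r : ℝ) * (z : ℂ) + (-c / r : ℝ) := rfl
  rw [h2, h3]
  have hr' : (r : ℂ) ≠ 0 := by exact_mod_cast hr.ne'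
  have hz := conj_sub_ne c z
  simp only [Complex.conjCAE_apply, Complex.star_def, map_div₀, map_add, map_mul, Complex.conj_ofReal]
  push_cast
  have h4 : (1 / (r : ℂ)) * conj (z : ℂ) + -c / r = (conj (z : ℂ) - c) / r := by field_simp; ring
  rw [h4]
  field_simp
  ring

theorem coe_refl_sub (c r : ℝ) (hr : 0 < r) (z : ℍ) :
    ((refl c r hr • z : ℍ) : ℂ) - c = r ^ 2 / (conj (z : ℂ) - c) := by
  rw [coe_refl_smul]; ring

theorem norm_conj_sub (c : ℝ) (z : ℂ) : ‖conj z - c‖ = ‖z - c‖ := by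
  have : conj z - c = conj (z - c) := by simp
  rw [this, Complex.norm_conj]

theorem norm_refl_sub (c r : ℝ) (hr : 0 < r) (z : ℍ) :
    ‖((refl c r hr • z : ℍ) : ℂ) - c‖ * ‖(z : ℂ) - c‖ = r ^ 2 := by
  rw [coe_refl_sub, norm_div, norm_conj_sub, norm_pow, Complex.norm_real, Real.norm_eq_abs, sq_abs,
    div_mul_cancel₀ _ (by rw [norm_ne_zero_iff]; exact sub_ne c z)]

theorem norm_sub_pos (c : ℝ) (z : ℍ) : 0 < ‖(z : ℂ) - c‖ := norm_pos_iff.mpr (sub_ne c z)

theorem im_refl (c r : ℝ) (hr : 0 < r) (z : ℍ) :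
    (refl c r hr • z).im = r ^ 2 * z.im / ‖(z : ℂ) - c‖ ^ 2 := by
  have h : (refl c r hr • z).im = (((refl c r hr • z : ℍ) : ℂ) - c).im := by simp
  rw [h, coe_refl_sub, Complex.div_im]
  have h1 : ((r : ℂ) ^ 2).im = 0 := by rw [← Complex.ofReal_pow]; exact Complex.ofReal_im _
  have h2 : ((r : ℂ) ^ 2).re = r ^ 2 := by rw [← Complex.ofReal_pow]; exact Complex.ofReal_re _
  rw [h1, h2, ← norm_conj_sub, Complex.sq_norm]
  simp
  ring

/-- `Im (ρ z) = Im z ‖ρ z - c‖² / r²`. -/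
theorem im_refl' (c r : ℝ) (hr : 0 < r) (z : ℍ) :
    (refl c r hr • z).im = z.im * ‖((refl c r hr • z : ℍ) : ℂ) - c‖ ^ 2 / r ^ 2 := by
  rw [im_refl]
  have h := norm_refl_sub c r hr z
  have h1 := norm_sub_pos c z
  have h3 : ‖((refl c r hr • z : ℍ) : ℂ) - c‖ = r ^ 2 / ‖(z : ℂ) - c‖ := by
    field_simp; linarith
  rw [h3]
  field_simp

theorem refl_fixed (c r : ℝ) (hr : 0 < r) (z : ℍ) (h : ‖(z : ℂ) - c‖ = r) :
    refl c r hr • z = z := by
  apply UpperHalfPlane.ext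
  rw [coe_refl_smul]
  have h1 : (conj (z : ℂ) - c) * ((z : ℂ) - c) = r ^ 2 := by
    have h2 : conj (z : ℂ) - c = conj ((z : ℂ) - c) := by simp
    rw [h2, Complex.conj_mul', h]
  rw [← h1, mul_div_cancel_left₀ _ (conj_sub_ne c z)]
  ring

theorem dist_refl (c r : ℝ) (hr : 0 < r) (z w : ℍ) :
    dist (refl c r hr • z) (refl c r hr • w) = dist z w := by
  rw [UpperHalfPlane.dist_eq, UpperHalfPlane.dist_eq]
  congr 2
  have h1 : dist ((refl c r hr • z : ℍ) : ℂ) ((refl c r hr • w : ℍ) : ℂ) =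
      r ^ 2 * dist (z : ℂ) w / (‖(z : ℂ) - c‖ * ‖(w : ℂ) - c‖) := by
    rw [dist_eq_norm, coe_refl_smul, coe_refl_smul]
    have : (c : ℂ) + r ^ 2 / (conj (z : ℂ) - c) - (c + r ^ 2 / (conj (w : ℂ) - c)) =
        r ^ 2 * conj ((w : ℂ) - z) / ((conj (z : ℂ) - c) * (conj (w : ℂ) - c)) := by
      have := conj_sub_ne c z
      have := conj_sub_ne c w
      field_simp
      simp
      ring
    rw [this, norm_div, norm_mul, norm_mul, norm_conj_sub, norm_conj_sub, Complex.norm_conj,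
      norm_pow, Complex.norm_real, Real.norm_eq_abs, sq_abs, dist_comm, dist_eq_norm]
  have h2 : √((refl c r hr • z).im * (refl c r hr • w).im) =
      r ^ 2 * √(z.im * w.im) / (‖(z : ℂ) - c‖ * ‖(w : ℂ) - c‖) := by
    rw [im_refl, im_refl]
    have hp := norm_sub_pos c z
    have hq := norm_sub_pos c w
    have : r ^ 2 * z.im / ‖(z : ℂ) - c‖ ^ 2 * (r ^ 2 * w.im / ‖(w : ℂ) - c‖ ^ 2) =
      (r ^ 2 / (‖(z : ℂ) - c‖ * ‖(w : ℂ) - c‖)) ^ 2 * (z.im * w.im) := by
      field_simp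
    rw [this, Real.sqrt_mul (by positivity), Real.sqrt_sq (by positivity)]
    ring
  rw [h1, h2]
  have hp := norm_sub_pos c z
  have hq := norm_sub_pos c w
  have hs : 0 < √(z.im * w.im) := Real.sqrt_pos.mpr (mul_pos z.im_pos w.im_pos)
  field_simp

end Pool.Agent.H711R3
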