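import Pool.Agent.H711R3.Map

set_option autoImplicit false

open UpperHalfPlane Filter
open scoped MatrixGroups Topology ComplexConjugate ENNReal

namespace Pool.Agent.H711R3

theorem exists_seq {α : Type*} (P : ℕ → (ℕ → α) → α → Prop)
    (hcongr : ∀ n g g' a, (∀ i < n, g i = g' i) → P n g a → P n g' a)
    (h : ∀ n g, (∀ m < n, P m g (g m)) → ∃ a, P n g a) (a0 : α) :
    ∃ f : ℕ → α, ∀ n, P n f (f n) := by
  classical
  let F : ℕ → ℕ → α := fun n => Nat.rec (fun _ => a0)
    (fun n g => Function.update g n (if h : ∃ a, P n g a then h.choose else a0)) n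
  have hF : ∀ n, F (n + 1) = Function.update (F n) n
    (if h : ∃ a, P n (F n) a then h.choose else a0) := fun n => rfl
  let f : ℕ → α := fun n => F (n + 1) n
  have hA : ∀ m n, n < m → F m n = f n := by
    intro m
    induction m with
    | zero => intro n hn; omega
    | succ m ih =>
      intro n hn
      by_cases hnm : n = m
      · subst hnm; rfl
      · rw [hF, Function.update_of_ne hnm]
        exact ih n (by omega)
  refine ⟨f, fun n => ?_⟩
  induction n using Nat.strong_induction_on with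
  | _ n ih =>
    have h1 : ∀ m < n, P m (F n) (F n m) := by
      intro m hm
      rw [hA n m hm]
      exact hcongr m f (F n) _ (fun i hi => (hA n i (by omega)).symm) (ih m hm)
    have h2 := h n (F n) h1
    have h3 : f n = h2.choose := by
      show F (n + 1) n = _
      rw [hF, Function.update_self, dif_pos h2]
    rw [h3]
    exact hcongr n (F n) f _ (fun i hi => hA n i hi) h2.choose_spec

/-- Centre after scaling. -/
noncomputable def cc (M : ℝ) (a : ℝ × ℝ) : ℝ := lam M a.1 * a.1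

/-- Radius after scaling. -/
noncomputable def rr (M : ℝ) (a : ℝ × ℝ) : ℝ := lam M a.1 * a.2

/-- Separation of two discs. -/
structure SepD (M δ : ℝ) (a b : ℝ × ℝ) : Prop where
  lt : rr M b < |cc M a - cc M b|
  le : rr M a * rr M b ≤ δ * (|cc M a - cc M b| - rr M b) ^ 2

theorem scaled_gap (M : ℝ) {a : ℝ × ℝ} {c : ℝ} (hc : c ≠ 0) (ha0 : 0 < a.2)
    (ha : 4 * a.2 ≤ |a.1|) (h : a.2 < |c - a.1|) : rr M a < |cc M a - lam M c * c| := by
  have hl := lam_pos M a.1
  have hlc := lam_pos M c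
  have hane : a.1 ≠ 0 := by
    intro h0
    rw [h0, abs_zero] at ha
    linarith
  unfold rr cc
  by_cases h1 : 0 < a.1
  · by_cases h2 : 0 < c
    · have e1 : lam M a.1 = Real.exp M := if_pos h1
      have e2 : lam M c = Real.exp M := if_pos h2
      rw [e1, e2, ← mul_sub, abs_mul, abs_of_pos (Real.exp_pos M), abs_sub_comm]
      exact mul_lt_mul_of_pos_left h (Real.exp_pos M)
    · have h2' : c < 0 := lt_of_le_of_ne (not_lt.mp h2) hc
      rw [abs_of_pos h1] at ha
      have h3 : 0 < lam M a.1 * a.1 := mul_pos hl h1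
      have h4 : lam M c * c < 0 := mul_neg_of_pos_of_neg hlc h2'
      rw [abs_of_pos (by linarith)]
      have := mul_le_mul_of_nonneg_left ha hl.le
      nlinarith [mul_pos hl ha0]
  · have h1' : a.1 < 0 := lt_of_le_of_ne (not_lt.mp h1) hane
    by_cases h2 : 0 < c
    · rw [abs_of_neg h1'] at ha
      have h3 : lam M a.1 * a.1 < 0 := mul_neg_of_pos_of_neg hl h1'
      have h4 : 0 < lam M c * c := mul_pos hlc h2
      rw [abs_of_neg (by linarith)]
      have := mul_le_mul_of_nonneg_left ha hl.le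
      nlinarith [mul_pos hl ha0]
    · have e1 : lam M a.1 = 1 := if_neg h1
      have e2 : lam M c = 1 := if_neg h2
      rw [e1, e2, one_mul, one_mul, one_mul, abs_sub_comm]
      exact h

theorem exists_radius (L : ℝ) {n : ℕ} {g : ℕ → ℝ × ℝ} {c δ : ℝ} (hc : c ≠ 0) (hδ : 0 < δ)
    (hg0 : ∀ i < n, 0 < (g i).2) (hg : ∀ i < n, 4 * (g i).2 ≤ |(g i).1|)
    (hgc : ∀ i < n, (g i).2 < |c - (g i).1|) :
    ∃ r : ℝ, 0 < r ∧ 4 * r ≤ |c| ∧ r ≤ δ ∧ ∀ i < n, ∀ M, (M = 0 ∨ M = L) →
      SepD M δ (g i) (c, r) ∧ SepD M δ (c, r) (g i) := by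
  have hone : ∀ i < n, ∀ M : ℝ, ∀ᶠ r : ℝ in 𝓝[>] 0,
      SepD M δ (g i) (c, r) ∧ SepD M δ (c, r) (g i) := by
    intro i hi M
    set K := |cc M (g i) - lam M c * c| with hK
    have hK1 : rr M (g i) < K := scaled_gap M hc (hg0 i hi) (hg i hi) (hgc i hi)
    have hri : 0 < rr M (g i) := mul_pos (lam_pos _ _) (hg0 i hi)
    have hcc : ∀ r, cc M (c, r) = lam M c * c := fun r => rfl
    have hrr : ∀ r, rr M (c, r) = lam M c * r := fun r => rfl
    have e1 : ∀ᶠ r : ℝ in 𝓝[>] 0, lam M c * r < K := by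
      refine nhdsWithin_le_nhds (ContinuousAt.eventually_lt (f := fun r : ℝ => lam M c * r)
        (g := fun _ => K) (by fun_prop) (by fun_prop) ?_)
      show lam M c * 0 < K
      linarith
    have e2 : ∀ᶠ r : ℝ in 𝓝[>] 0, rr M (g i) * (lam M c * r) < δ * (K - lam M c * r) ^ 2 := by
      refine nhdsWithin_le_nhds (ContinuousAt.eventually_lt
        (f := fun r : ℝ => rr M (g i) * (lam M c * r))
        (g := fun r : ℝ => δ * (K - lam M c * r) ^ 2) (by fun_prop) (by fun_prop) ?_)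
      show rr M (g i) * (lam M c * 0) < δ * (K - lam M c * 0) ^ 2
      have hK0 : 0 < K := by linarith
      rw [mul_zero, mul_zero, sub_zero]
      positivity
    have e3 : ∀ᶠ r : ℝ in 𝓝[>] 0, (lam M c * r) * rr M (g i) < δ * (K - rr M (g i)) ^ 2 := by
      refine nhdsWithin_le_nhds (ContinuousAt.eventually_lt
        (f := fun r : ℝ => (lam M c * r) * rr M (g i))
        (g := fun r : ℝ => δ * (K - rr M (g i)) ^ 2) (by fun_prop) (by fun_prop) ?_)
      show (lam M c * 0) * rr M (g i) < δ * (K - rr M (g i)) ^ 2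
      have hK0 : 0 < K - rr M (g i) := by linarith
      rw [mul_zero, zero_mul]
      positivity
    filter_upwards [e1, e2, e3] with r h1 h2 h3
    refine ⟨⟨?_, ?_⟩, ⟨?_, ?_⟩⟩
    · rw [hcc, hrr]; exact h1
    · rw [hcc, hrr]; exact h2.le
    · rw [hcc, abs_sub_comm]; exact hK1
    · rw [hcc, hrr, abs_sub_comm]; exact h3.le
  have hall : ∀ᶠ r : ℝ in 𝓝[>] 0, ∀ i ∈ Finset.range n,
      (SepD 0 δ (g i) (c, r) ∧ SepD 0 δ (c, r) (g i)) ∧
      (SepD L δ (g i) (c, r) ∧ SepD L δ (c, r) (g i)) := by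
    rw [Filter.eventually_all_finset]
    intro i hi
    have hi' := Finset.mem_range.mp hi
    exact (hone i hi' 0).and (hone i hi' L)
  have hcpos : 0 < |c| := abs_pos.mpr hc
  have h4 : ∀ᶠ r : ℝ in 𝓝[>] 0, r ∈ Set.Ioo 0 (min (|c| / 4) δ) :=
    Ioo_mem_nhdsGT (lt_min (by linarith) hδ)
  obtain ⟨r, hr1, hr2⟩ := (hall.and h4).exists
  refine ⟨r, hr2.1, ?_, ?_, fun i hi M hM => ?_⟩
  · have := hr2.2.le.trans (min_le_left _ _)
    linarith
  · exact hr2.2.le.trans (min_le_right _ _)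
  · rcases hM with rfl | rfl
    · exact (hr1 i (Finset.mem_range.mpr hi)).1
    · exact (hr1 i (Finset.mem_range.mpr hi)).2

/-- The first three discs. -/
noncomputable def ini (n : ℕ) : ℝ × ℝ :=
  if n = 0 then (-1, 1 / 4) else if n = 1 then (1, 1 / 4) else (4, 1)

/-- The recursive requirement. -/
structure Good (L : ℝ) (δ e : ℕ → ℝ) (n : ℕ) (g : ℕ → ℝ × ℝ) (a : ℝ × ℝ) : Prop where
  pos : 0 < a.2
  base : 4 * a.2 ≤ |a.1|
  le : 3 ≤ n → a.2 ≤ δ n
  sep : 3 ≤ n → ∀ i < n, ∀ M, (M = 0 ∨ M = L) → SepD M (δ n) (g i) a ∧ SepD M (δ n) a (g i)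
  cover : 3 ≤ n → e n ≠ 0 → |e n - a.1| ≤ a.2 ∨ ∃ i < n, |e n - (g i).1| ≤ (g i).2
  ini : n < 3 → a = ini n

theorem exists_good (L : ℝ) {δ e : ℕ → ℝ} (hδ : ∀ n, 0 < δ n) :
    ∃ f : ℕ → ℝ × ℝ, ∀ n, Good L δ e n f (f n) := by
  refine exists_seq (Good L δ e) ?_ ?_ (0, 0)
  · intro n g g' a hgg h
    refine ⟨h.pos, h.base, h.le, fun h3 i hi M hM => ?_, fun h3 he => ?_, h.ini⟩
    · rw [← hgg i hi]
      exact h.sep h3 i hi M hM
    · rcases h.cover h3 he with h1 | ⟨i, hi, h1⟩
      · exact Or.inl h1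
      · exact Or.inr ⟨i, hi, by rw [← hgg i hi]; exact h1⟩
  · intro n g hg
    by_cases hn : n < 3
    · refine ⟨ini n, ?_, ?_, fun h => absurd hn (not_lt.mpr h), fun h => absurd hn (not_lt.mpr h),
        fun h => absurd hn (not_lt.mpr h), fun _ => rfl⟩
      · unfold ini; split_ifs <;> norm_num
      · unfold ini; split_ifs <;> norm_num
    · push Not at hn
      obtain ⟨c, hc0, hcg, hcov⟩ : ∃ c : ℝ, c ≠ 0 ∧ (∀ i < n, (g i).2 < |c - (g i).1|) ∧
          (e n ≠ 0 → c = e n ∨ ∃ i < n, |e n - (g i).1| ≤ (g i).2) := by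
        by_cases h : e n ≠ 0 ∧ ∀ i < n, (g i).2 < |e n - (g i).1|
        · exact ⟨e n, h.1, h.2, fun _ => Or.inl rfl⟩
        · obtain ⟨B, hB⟩ : ∃ B : ℝ, ∀ i < n, |(g i).1| + (g i).2 ≤ B := by
            refine ⟨∑ i ∈ Finset.range n, (|(g i).1| + (g i).2), fun i hi => ?_⟩
            refine Finset.single_le_sum (f := fun i => |(g i).1| + (g i).2) (fun j hj => ?_)
              (Finset.mem_range.mpr hi)
            have := (hg j (Finset.mem_range.mp hj)).pos
            positivity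
          refine ⟨|B| + 1, by positivity, fun i hi => ?_, fun he => ?_⟩
          · have h1 := hB i hi
            have h2 := le_abs_self B
            have h3 := le_abs_self (g i).1
            have h4 := le_abs_self (|B| + 1 - (g i).1)
            linarith
          · right
            push Not at h
            obtain ⟨i, hi, h1⟩ := h he
            exact ⟨i, hi, h1⟩
      obtain ⟨r, hr0, hr1, hr2, hr3⟩ := exists_radius L (g := g) (n := n) hc0 (hδ n)
        (fun i hi => (hg i hi).pos) (fun i hi => (hg i hi).base) hcg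
      refine ⟨(c, r), hr0, hr1, fun _ => hr2, fun _ => hr3, fun _ he => ?_,
        fun h => absurd hn (not_le.mpr h)⟩
      rcases hcov he with h1 | h1
      · left
        rw [h1]
        simpa using hr0.le
      · exact Or.inr h1

end Pool.Agent.H711R3
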