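import Pool.Agent.H711R3.Refl

set_option autoImplicit false

open UpperHalfPlane
open scoped MatrixGroups Topology ComplexConjugate

namespace Pool.Agent.H711R3

/-- An infinite family of half discs, centred at the points `c i` of the real line, of radii `r i`,
which are far apart in a symmetric sense. -/
structure Cfg where
  c : ℕ → ℝ
  r : ℕ → ℝ
  pos : ∀ i, 0 < r i
  gap : ∀ i j, i ≠ j → r j < |c i - c j|
  gap4 : ∀ i j, i ≠ j → 4 * (r i * r j) ≤ (|c i - c j| - r j) ^ 2

namespace Cfg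

variable (C : Cfg)

theorem sep {i j : ℕ} (h : i ≠ j) : C.r i + C.r j < |C.c i - C.c j| := by
  have hi := C.pos i
  have hj := C.pos j
  rcases le_total (C.r i) (C.r j) with hle | hle
  · have h1 := C.gap i j h
    have h2 := C.gap4 i j h
    nlinarith
  · have h1 := C.gap j i h.symm
    have h2 := C.gap4 j i h.symm
    rw [abs_sub_comm]
    nlinarith

/-- The reflection in the `i`-th circle. -/
noncomputable def ρ (i : ℕ) : GL (Fin 2) ℝ := refl (C.c i) (C.r i) (C.pos i)

/-- The product of reflections given by a word. -/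
noncomputable def word (l : List ℕ) : GL (Fin 2) ℝ := (l.map C.ρ).prod

/-- Distance to the centre of the `i`-th circle. -/
noncomputable def nd (i : ℕ) (z : ℍ) : ℝ := ‖(z : ℂ) - C.c i‖

theorem nd_pos (i : ℕ) (z : ℍ) : 0 < C.nd i z := norm_sub_pos _ _

/-- The closed fundamental polygon. -/
def P : Set ℍ := {z | ∀ i, C.r i ≤ C.nd i z}

@[simp] theorem word_nil : C.word [] = 1 := by simp [word]

theorem word_cons (i : ℕ) (l : List ℕ) : C.word (i :: l) = C.ρ i * C.word l := by
  simp [word]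

theorem word_append (l m : List ℕ) : C.word (l ++ m) = C.word l * C.word m := by
  simp [word]

theorem ρ_mul_self (i : ℕ) : C.ρ i * C.ρ i = 1 := refl_mul_self _ _ _

theorem ρ_smul_smul (i : ℕ) (z : ℍ) : C.ρ i • (C.ρ i • z) = z := refl_smul_smul _ _ _ _

theorem word_cons_smul (i : ℕ) (l : List ℕ) (z : ℍ) :
    C.word (i :: l) • z = C.ρ i • (C.word l • z) := by
  rw [word_cons, mul_smul]

theorem word_reverse (l : List ℕ) : C.word l.reverse = (C.word l)⁻¹ := by
  induction l with
  | nil => simp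
  | cons i l ih =>
    rw [List.reverse_cons, word_append, ih, word_cons, word_cons, word_nil, mul_one, mul_inv_rev]
    congr 1
    rw [eq_inv_iff_mul_eq_one, ρ_mul_self]

theorem nd_ρ (i : ℕ) (z : ℍ) : C.nd i (C.ρ i • z) * C.nd i z = C.r i ^ 2 :=
  norm_refl_sub _ _ _ _

theorem nd_ρ_le {i : ℕ} {z : ℍ} (h : C.r i ≤ C.nd i z) : C.nd i (C.ρ i • z) ≤ C.r i := by
  have h1 := C.nd_ρ i z
  have h2 := C.nd_pos i z
  have h3 := C.pos i
  by_contra hc
  push Not at hc
  nlinarith

theorem nd_ρ_lt {i : ℕ} {z : ℍ} (h : C.r i < C.nd i z) : C.nd i (C.ρ i • z) < C.r i := by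
  have h1 := C.nd_ρ i z
  have h2 := C.nd_pos i z
  have h3 := C.pos i
  by_contra hc
  push Not at hc
  nlinarith

theorem lt_nd_ρ {i : ℕ} {z : ℍ} (h : C.nd i z < C.r i) : C.r i < C.nd i (C.ρ i • z) := by
  have h1 := C.nd_ρ i z
  have h2 := C.nd_pos i z
  have h3 := C.pos i
  by_contra hc
  push Not at hc
  nlinarith

theorem abs_sub_le_nd (i j : ℕ) (z : ℍ) : |C.c i - C.c j| ≤ C.nd i z + C.nd j z := by
  have h : ((C.c i - C.c j : ℝ) : ℂ) = ((z : ℂ) - C.c j) - ((z : ℂ) - C.c i) := by
    push_cast; ring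
  rw [← Real.norm_eq_abs, ← Complex.norm_real, h]
  exact (norm_sub_le _ _).trans (by rw [nd, nd, add_comm])

theorem lt_nd_of_le {i j : ℕ} (hij : i ≠ j) {z : ℍ} (h : C.nd j z ≤ C.r j) : C.r i < C.nd i z := by
  have h1 := C.sep hij
  have h2 := C.abs_sub_le_nd i j z
  linarith

/-- Reduced words: no two consecutive letters are equal. -/
def Red (l : List ℕ) : Prop := l.IsChain (· ≠ ·)

theorem Red.tail {i : ℕ} {l : List ℕ} (h : Red (i :: l)) : Red l := List.IsChain.tail h

theorem red_cons {i j : ℕ} {l : List ℕ} : Red (i :: j :: l) ↔ i ≠ j ∧ Red (j :: l) :=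
  List.isChain_cons_cons

theorem red_nil : Red [] := List.isChain_nil

theorem red_singleton (i : ℕ) : Red [i] := List.isChain_singleton i

theorem ping {l : List ℕ} : ∀ {i : ℕ}, Red (i :: l) → ∀ {p : ℍ}, p ∈ C.P →
    C.nd i (C.word (i :: l) • p) ≤ C.r i ∧ (l ≠ [] → C.nd i (C.word (i :: l) • p) < C.r i) := by
  induction l with
  | nil =>
    intro i _ p hp
    rw [word_cons, word_nil, mul_one]
    exact ⟨C.nd_ρ_le (hp i), fun h => absurd rfl h⟩
  | cons j l ih =>
    intro i h p hp
    rw [red_cons] at h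
    have h1 := (ih h.2 hp).1
    have h2 := C.nd_ρ_lt (C.lt_nd_of_le h.1 h1)
    rw [word_cons, mul_smul]
    exact ⟨h2.le, fun _ => h2⟩

theorem im_le_nd (i : ℕ) (z : ℍ) : z.im ≤ C.nd i z := by
  have h := Complex.abs_im_le_norm ((z : ℂ) - C.c i)
  have h2 : ((z : ℂ) - C.c i).im = z.im := by simp
  rw [h2, abs_of_pos z.im_pos] at h
  exact h

theorem im_ρ' (i : ℕ) (z : ℍ) :
    (C.ρ i • z).im = z.im * C.nd i (C.ρ i • z) ^ 2 / C.r i ^ 2 := im_refl' _ _ _ _

theorem im_ρ (i : ℕ) (z : ℍ) :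
    (C.ρ i • z).im = C.r i ^ 2 * z.im / C.nd i z ^ 2 := im_refl _ _ _ _

theorem exists_word_aux (n : ℕ) : ∀ (i : ℕ) (z : ℍ), C.nd i z < C.r i → C.r i ≤ 4 ^ n * z.im →
    ∃ (l : List ℕ) (p : ℍ), Red (i :: l) ∧ p ∈ C.P ∧ z = C.word (i :: l) • p := by
  induction n with
  | zero =>
    intro i z h1 h2
    have := C.im_le_nd i z
    simp at h2
    linarith
  | succ n ih =>
    intro i z h1 h2
    by_cases hP : C.ρ i • z ∈ C.P
    · refine ⟨[], C.ρ i • z, red_singleton i, hP, ?_⟩
      rw [word_cons, word_nil, mul_one, ρ_smul_smul]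
    · simp only [P, Set.mem_ofPred_eq, not_forall, not_le] at hP
      obtain ⟨j, hj⟩ := hP
      have h3 := C.lt_nd_ρ h1
      have hij : i ≠ j := by
        rintro rfl
        linarith
      have hri := C.pos i
      have hrj := C.pos j
      have h4 := C.abs_sub_le_nd i j (C.ρ i • z)
      have h5 := C.gap4 i j hij
      have h6 := C.gap i j hij
      have h7 : 4 * (C.r i * C.r j) ≤ C.nd i (C.ρ i • z) ^ 2 := by
        refine h5.trans (pow_le_pow_left₀ (by linarith) (by linarith) 2)
      have h8 := C.im_ρ' i z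
      obtain ⟨l, p, hl, hp, hz⟩ := ih j (C.ρ i • z) hj (by
        rw [h8]
        have h9 : C.r i * C.r j ≤ 4 ^ (n + 1) * z.im * C.r j :=
          mul_le_mul_of_nonneg_right h2 hrj.le
        rw [← mul_div_assoc, le_div_iff₀ (by positivity)]
        have h10 := z.im_pos
        have h11 : (4 : ℝ) ^ n * z.im * (4 * (C.r i * C.r j)) ≤
          4 ^ n * z.im * C.nd i (C.ρ i • z) ^ 2 := mul_le_mul_of_nonneg_left h7 (by positivity)
        have h12 : C.r i * C.r j * C.r i ≤ 4 ^ (n + 1) * z.im * C.r j * C.r i :=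
          mul_le_mul_of_nonneg_right h9 hri.le
        calc C.r j * C.r i ^ 2 = C.r i * C.r j * C.r i := by ring
          _ ≤ 4 ^ (n + 1) * z.im * C.r j * C.r i := h12
          _ = (4 : ℝ) ^ n * z.im * (4 * (C.r i * C.r j)) := by ring
          _ ≤ _ := h11
          _ = _ := by ring)
      refine ⟨j :: l, p, red_cons.mpr ⟨hij, hl⟩, hp, ?_⟩
      rw [word_cons_smul, ← hz, ρ_smul_smul]

theorem exists_word (z : ℍ) : ∃ (l : List ℕ) (p : ℍ), Red l ∧ p ∈ C.P ∧ z = C.word l • p := by
  by_cases hP : z ∈ C.P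
  · exact ⟨[], z, red_nil, hP, by simp⟩
  · simp only [P, Set.mem_ofPred_eq, not_forall, not_le] at hP
    obtain ⟨i, hi⟩ := hP
    obtain ⟨n, hn⟩ := pow_unbounded_of_one_lt (C.r i / z.im) (show (1 : ℝ) < 4 by norm_num)
    have hz := z.im_pos
    obtain ⟨l, p, h1, h2, h3⟩ := C.exists_word_aux n i z hi (by
      rw [div_lt_iff₀ hz] at hn
      exact hn.le)
    exact ⟨i :: l, p, h1, h2, h3⟩

theorem ρ_fixed {i : ℕ} {z : ℍ} (h : C.nd i z = C.r i) : C.ρ i • z = z := refl_fixed _ _ _ _ h

/-- A map `f` from the polygon of `C` to that of `C'` respecting the sides. -/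
structure SideMap (C C' : Cfg) (f : ℍ → ℍ) : Prop where
  maps : ∀ p ∈ C.P, f p ∈ C'.P
  side : ∀ p ∈ C.P, ∀ i, C.nd i p = C.r i → C'.nd i (f p) = C'.r i

variable {C} {C' : Cfg} {f : ℍ → ℍ}

theorem wd (hf : SideMap C C' f) : ∀ {l m : List ℕ}, Red l → Red m → ∀ {p q : ℍ}, p ∈ C.P →
    q ∈ C.P → C.word l • p = C.word m • q → C'.word l • f p = C'.word m • f q := by
  have key : ∀ {j : ℕ} {m : List ℕ}, Red (j :: m) → ∀ {p q : ℍ}, p ∈ C.P → q ∈ C.P →
      p = C.word (j :: m) • q → f p = C'.word (j :: m) • f q := by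
    intro j m hm p q hp hq h
    have h1 := C.ping hm hq
    rw [← h] at h1
    have hm' : m = [] := by
      by_contra hne
      exact absurd (hp j) (not_le.mpr (h1.2 hne))
    subst hm'
    have h2 : C.nd j p = C.r j := le_antisymm h1.1 (hp j)
    rw [word_cons, word_nil, mul_one] at h ⊢
    have h3 : q = p := by
      have : C.ρ j • p = q := by rw [h, ρ_smul_smul]
      rw [← this, C.ρ_fixed h2]
    rw [h3, C'.ρ_fixed (hf.side p hp j h2)]
  intro l
  induction l with
  | nil =>
    intro m _ hm p q hp hq h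
    cases m with
    | nil => simpa using congrArg f (by simpa using h)
    | cons j m =>
      rw [word_nil, one_smul] at h ⊢
      exact key hm hp hq h
  | cons i l ih =>
    intro m hl hm p q hp hq h
    cases m with
    | nil =>
      rw [word_nil, one_smul] at h ⊢
      exact (key hl hq hp h.symm).symm
    | cons j m =>
      have h1 := (C.ping hl hp).1
      have h2 := (C.ping hm hq).1
      rw [h] at h1
      have hij : i = j := by
        by_contra hne
        exact absurd (C.lt_nd_of_le hne h2) (not_lt.mpr h1)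
      subst hij
      rw [word_cons_smul, word_cons_smul] at h ⊢
      have h3 := congrArg (fun z => C.ρ i • z) h
      simp only [ρ_smul_smul] at h3
      rw [ih hl.tail hm.tail hp hq h3]

/-- The equivariant extension of `f`. -/
noncomputable def ext (C C' : Cfg) (f : ℍ → ℍ) (z : ℍ) : ℍ :=
  C'.word (C.exists_word z).choose • f (C.exists_word z).choose_spec.choose

theorem ext_word (hf : SideMap C C' f) {l : List ℕ} (hl : Red l) {p : ℍ} (hp : p ∈ C.P) :
    ext C C' f (C.word l • p) = C'.word l • f p := by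
  have h := (C.exists_word (C.word l • p)).choose_spec.choose_spec
  exact wd hf h.1 hl h.2.1 hp h.2.2.symm

theorem ext_of_mem (hf : SideMap C C' f) {p : ℍ} (hp : p ∈ C.P) : ext C C' f p = f p := by
  have := ext_word hf red_nil hp
  simpa using this

theorem ext_ρ (hf : SideMap C C' f) (i : ℕ) (z : ℍ) :
    ext C C' f (C.ρ i • z) = C'.ρ i • ext C C' f z := by
  obtain ⟨l, p, hl, hp, rfl⟩ := C.exists_word z
  rw [ext_word hf hl hp]
  cases l with
  | nil =>
    rw [← word_cons_smul, ← word_cons_smul, ext_word hf (red_singleton i) hp]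
  | cons j l =>
    by_cases hij : i = j
    · subst hij
      rw [word_cons_smul, word_cons_smul, ρ_smul_smul, ρ_smul_smul, ext_word hf hl.tail hp]
    · rw [← word_cons_smul, ← word_cons_smul, ext_word hf (red_cons.mpr ⟨hij, hl⟩) hp]

theorem ext_word_smul (hf : SideMap C C' f) (l : List ℕ) (z : ℍ) :
    ext C C' f (C.word l • z) = C'.word l • ext C C' f z := by
  induction l with
  | nil => simp
  | cons i l ih => rw [word_cons_smul, ext_ρ hf, ih, word_cons_smul]

theorem ext_ext (hf : SideMap C C' f) {g : ℍ → ℍ} (hg : SideMap C' C g)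
    (hgf : ∀ p, g (f p) = p) (z : ℍ) : ext C' C g (ext C C' f z) = z := by
  obtain ⟨l, p, hl, hp, rfl⟩ := C.exists_word z
  rw [ext_word hf hl hp, ext_word hg hl (hf.maps p hp), hgf]

end Cfg

end Pool.Agent.H711R3
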